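import Pool.Agent.TX.St
import Pool.Agent.TW.AsmA

/-!
Theorem X (MP_31fd3b_gt): assembly of the algebraic part.
-/

open scoped BigOperators

namespace Pool.Agent.TX

open Pool.Agent.LibH11.Sliced Pool.Agent.MTR Pool.Agent.MTA Pool.Agent.UA Pool.Agent.UB
open Pool.Agent.TwoBr Pool.Agent.Mont Pool.Agent.TV Pool.Agent.TW
open Pool.Agent.TB hiding vec

namespace AsmX

open Pool.Agent.TW.AsmA

theorem T3_tr {m : Md} (h : m.Ok) : T3 m.tr m.2.1 m.2.2.1 m.1 m.2.2.2 := by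
  obtain ⟨⟨ha, hb, hc⟩, ha2, hb2, hc2⟩ := h
  exact T3_M3 m.2.2.2 ha hb hc ha2 hb2 hc2

/-- the vertex of the tree `m.tr` -/
def ux (m : Md) : Vx := v0 m.2.1 m.2.2.1 m.1 m.2.2.2

theorem VL_single (t : Tr) : VL [t] = vts (0, 1) t := by
  simp [VL]

/-- the nontrivial vertices of a list of trees `M3` -/
theorem nts_tr (hNT3 : NT3_Stmt) : ∀ Ms : List Md, (∀ m ∈ Ms, m.Ok) →
    nts (VL (Ms.map Md.tr)) = Ms.map ux := by
  intro Ms
  induction Ms with
  | nil => intro _; rfl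
  | cons m Ms ih =>
    intro h
    rw [List.map_cons, VL_cons, nts_append, ih fun x hx => h x (List.mem_cons_of_mem _ hx),
      (hNT3.2 _ _ _ _ _ (T3_tr (h m List.mem_cons_self))).1]
    rfl

theorem slp_ux {D : ℤ} (hALZ : ALZ_Stmt) (hD : D ≠ 0) {m : Md} (h : m.Ok)
    (hd : (tot (ux m)).1 ∣ D) (hn : Ntr (ux m)) : slp (tot (ux m)) = m.sg := by
  obtain ⟨-, -, h3, -⟩ := hALZ.1 D (ux m) hD hd hn.1
  have h5 : sls (ux m) = [sr m.1, sr m.2.1, sr m.2.2.1 - m.2.2.2] :=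
    sls_v0 m.2.2.2 (ne0 h.2.2.2)
  unfold sls at h5
  simp only [List.cons.injEq, and_true] at h5
  obtain ⟨i1, i2, i3⟩ := h5
  rw [← h3, i1, i2, i3]
  unfold Md.sg
  ring

theorem sls_vx {m : Md} (h : m.Ok) : sls m.vx = [sr m.2.2.1, sr m.1, sr m.2.1 - m.2.2.2] :=
  sls_v0 m.2.2.2 (ne0 h.2.2.1)

theorem fr_vx {m : Md} (h : m.Ok) : ((sls m.vx).map Int.fract).Perm m.fr := by
  rw [sls_vx h]
  unfold Md.fr
  simp only [List.map_cons, List.map_nil, fract_sub]
  exact (List.perm_append_comm (l₁ := [Int.fract (sr m.2.2.1)])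
    (l₂ := [Int.fract (sr m.1), Int.fract (sr m.2.1)]))

theorem fr_ux {m : Md} (h : m.Ok) : (sls (ux m)).map Int.fract = m.fr := by
  have h5 : sls (ux m) = [sr m.1, sr m.2.1, sr m.2.2.1 - m.2.2.2] :=
    sls_v0 m.2.2.2 (ne0 h.2.2.2)
  rw [h5]
  unfold Md.fr
  simp only [List.map_cons, List.map_nil, fract_sub]

theorem slp_vx {D : ℤ} (hALZ : ALZ_Stmt) (hD : D ≠ 0) {m : Md} (h : m.Ok)
    (hd : (tot m.vx).1 ∣ D) (hn : Ntr m.vx) : slp (tot m.vx) = m.sg := by
  obtain ⟨-, -, h3, -⟩ := hALZ.1 D m.vx hD hd hn.1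
  have h5 := sls_vx h
  unfold sls at h5
  simp only [List.cons.injEq, and_true] at h5
  obtain ⟨i1, i2, i3⟩ := h5
  rw [← h3, i1, i2, i3]
  unfold Md.sg
  ring

theorem ok_of_T {m : Md} {t : Tr} (h : m.T t) : m.Ok := ⟨h.1, h.2.1⟩

/-- sums over lists related by a relation -/
theorem sum_forall₂ {α β : Type} {R : α → β → Prop} {M : Type} [AddCommMonoid M] {f : α → M}
    {g : β → M} (h : ∀ a b, R a b → f a = g b) :
    ∀ {l : List α} {l' : List β}, List.Forall₂ R l l' → (l.map f).sum = (l'.map g).sum := by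
  intro l l' hl
  induction hl with
  | nil => rfl
  | cons h1 _ ih => rw [List.map_cons, List.map_cons, List.sum_cons, List.sum_cons, h _ _ h1, ih]

theorem VL_perm {X Y : List Tr} (h : X.Perm Y) : (VL X).Perm (VL Y) := h.flatMap_right _

theorem evF_perm (F : ℤ × ℤ → ℤ × ℤ → ℂ) {X Y : List Tr} (h : X.Perm Y) :
    evF F (NLs X) = evF F (NLs Y) := by
  unfold evF NLs
  exact ((h.flatMap_right _).map _).sum_eq

theorem evF_map (F : ℤ × ℤ → ℤ × ℤ → ℂ) (X : List Tr) :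
    evF F (NLs X) = (X.map fun t => evF F (NL (0, 1) t)).sum := by
  induction X with
  | nil => simp [evF, NLs]
  | cons t X ih =>
    rw [NLs_cons, evF_append, ih, List.map_cons, List.sum_cons]

end AsmX

open AsmX TW.AsmA TV.Asm in
/-- The algebraic part of Theorem X. -/
theorem algx (hLIE : LIEW_Stmt) (hVTS : VTS_Stmt) (hRSI : RSI_Stmt) (hCLS : TW.CLS_Stmt)
    (hCSM : CSM_Stmt) (hALZ : ALZ_Stmt) (hPLA : PLA_Stmt) (hJONV : JONV_Stmt) (hOMR : OMR_Stmt)
    (hOMP : OMP_Stmt) (hNWL : NWL_Stmt) (hCRN : CRN_Stmt) (hVXA : VXA_Stmt) (hGVX : GVX_Stmt)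
    (hWBX : WBX_Stmt) (hSW : SW_Stmt) (hNT3 : NT3_Stmt) (hM3C : M3C_Stmt) (hNLE : NLE_Stmt)
    (hNVE : NVE_Stmt) (hNZR : NZR_Stmt) (hNZM : NZM_Stmt) (hJPV : JPV_Stmt) (hSPX : SPX_Stmt)
    (hLFX : LFX_Stmt) : ALGX_Stmt := by
  intro Ts T0 Ms h h' hlen hT hT0 hMs hnd hv
  set Ts' := T0 ++ Ms.map Md.tr with hTs'
  have hmem' : ∀ t ∈ Ts', t ∈ T0 ∨ ∃ m ∈ Ms, t = m.tr := by
    intro t ht
    rcases List.mem_append.1 ht with ht | ht
    · exact Or.inl ht
    · obtain ⟨m, hm, rfl⟩ := List.mem_map.1 ht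
      exact Or.inr ⟨m, hm, rfl⟩
  have hoddT' : ∀ t ∈ Ts', Odd (vec t).1 := by
    intro t ht
    rcases hmem' t ht with ht | ⟨m, hm, rfl⟩
    · exact (hT0 t ht).2
    · exact (hMs m hm).2
  obtain ⟨hodd, hw⟩ := hJONV Ts Ts' h h' hv hoddT'
  have hoddA : ∀ t ∈ Ts ++ Ts', Odd (vec t).1 := by
    intro t ht
    rcases List.mem_append.1 ht with ht | ht
    · exact hodd t ht
    · exact hoddT' t ht
  obtain ⟨D, hD, hdvd⟩ : ∃ D : ℤ, Odd D ∧ ∀ t ∈ Ts ++ Ts', (vec t).1 ∣ D := by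
    refine ⟨((Ts ++ Ts').map fun t => (vec t).1).prod, odd_prod _ ?_, fun t ht => ?_⟩
    · intro x hx
      obtain ⟨t, ht, rfl⟩ := List.mem_map.1 hx
      exact hoddA t ht
    · exact List.dvd_prod (List.mem_map.2 ⟨t, ht, rfl⟩)
  have hD0 : D ≠ 0 := by rintro rfl; simp at hD
  have hne : ∀ t ∈ Ts ++ Ts', (vec t).1 ≠ 0 := by
    intro t ht h0
    have := hoddA t ht
    rw [h0] at this
    simp at this
  have hNVP : ∀ t ∈ Ts', NVP t := by
    intro t ht
    refine ⟨hoddT' t ht, ?_⟩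
    rcases hmem' t ht with ht | ⟨m, hm, rfl⟩
    · exact hNZR t (hT0 t ht).1 (hT0 t ht).2
    · obtain ⟨⟨⟨ha, hb, hc⟩, -⟩, ho⟩ := hMs m hm
      exact hNZM m.1 m.2.1 m.2.2.1 m.2.2.2 ha hb hc ho
  have hlen' : Ts.length = Ts'.length := by
    rw [hTs', List.length_append, hlen, List.length_map]
  have hR := hRSI Ts Ts' D hD hdvd (hLIE Ts Ts' h h' hlen' hodd hNVP hv D hD hdvd)
  -- vertices
  have htot : ∀ t ∈ Ts ++ Ts', ∀ v ∈ vts (0, 1) t, (tot v).1 = (vec t).1 := by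
    intro t _ v hvt
    rw [(hVTS t (0, 1)).1 v hvt, dt_one]
  have hdvT : ∀ X : List Tr, (∀ t ∈ X, t ∈ Ts ++ Ts') → ∀ v ∈ VL X, (tot v).1 ∣ D := by
    intro X hX v hvt
    obtain ⟨t, ht, hvt⟩ := mem_VL hvt
    rw [htot t (hX t ht) v hvt]
    exact hdvd t (hX t ht)
  have hdv1 := hdvT Ts fun t ht => List.mem_append_left _ ht
  have hdv2 := hdvT Ts' fun t ht => List.mem_append_right _ ht
  have hC := hCLS D hD (VL Ts) (VL Ts') (by
      intro v hvt
      rcases List.mem_append.1 hvt with hvt | hvt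
      · exact hdv1 v hvt
      · exact hdv2 v hvt)
    (fun g z hg hz => (hR g hg).1 z hz)
  have hT02 : ∀ t ∈ T0, T2 t := fun t ht => T2_of_rat (hT0 t ht).1
  have hOk : ∀ m ∈ Ms, m.Ok := fun m hm => (hMs m hm).1
  set Ws := Ms.map ux with hWs
  have hnts' : nts (VL Ts') = Ws := by
    rw [hTs', VL_append, nts_append, nts_VL_nil hNT3 T0 hT02, nts_tr hNT3 Ms hOk]
    rfl
  have hWmem : ∀ w ∈ Ws, w ∈ VL Ts' ∧ Ntr w := by
    intro w hw'
    rw [← hnts'] at hw'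
    exact mem_nts.1 hw'
  have hWd : ∀ w ∈ Ws, (tot w).1 ∣ D := fun w hw' => hdv2 w (hWmem w hw').1
  have hWnd : (Ws.map (Kv D)).Nodup := by
    have h1 : Ws.map (Kv D) = Ms.map fun m => Kv D (ux m) := by
      rw [hWs, List.map_map]
      rfl
    rw [h1]
    refine (List.Nodup.of_map (f := fun K : ℤ => (D : ℚ) / K)) ?_
    rw [List.map_map]
    have h2 : Ms.map ((fun K : ℤ => (D : ℚ) / K) ∘ fun m => Kv D (ux m)) = Ms.map Md.sg := by
      refine List.map_congr_left fun m hm => ?_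
      have hx : ux m ∈ Ws := List.mem_map.2 ⟨m, hm, rfl⟩
      show (D : ℚ) / (Kv D (ux m) : ℤ) = m.sg
      rw [(hALZ.1 D (ux m) hD0 (hWd _ hx) (hWmem _ hx).2.1).2.1]
      exact slp_ux hALZ hD0 (hOk m hm) (hWd _ hx) (hWmem _ hx).2
    rw [h2]
    exact hnd
  have hW := hWBX D hD0 (VL Ts) Ws (by
      intro v hvm
      rcases List.mem_append.1 hvm with hvm | hvm
      · exact hWd v hvm
      · exact hdv1 v hvm) (fun w hw' => (hWmem w hw').2) hWnd
    (by
      intro K φ hK hφ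
      rw [hC K φ hK hφ, class_nts hALZ hD0 hK hφ (VL Ts') hdv2, hnts'])
  -- numbers of representations
  have hP : ∀ F, Sym D F → evF F (NLs Ts) = evF F (NLs Ts') := by
    intro F hF
    have hp := hPLA D hD (NLs Ts ++ (NLs Ts').map fun e => (-e.1, e.2)) (by
        intro e he
        rcases List.mem_append.1 he with he | he
        · obtain ⟨t, ht, het⟩ : ∃ t ∈ Ts, e ∈ NL (0, 1) t := by
            simpa [NLs, List.mem_flatMap] using he
          rw [(hVTS t (0, 1)).2.1 e het, dt_one]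
          exact hdvd t (List.mem_append_left _ ht)
        · obtain ⟨e', he', rfl⟩ := List.mem_map.1 he
          obtain ⟨t, ht, het⟩ : ∃ t ∈ Ts', e' ∈ NL (0, 1) t := by
            simpa [NLs, List.mem_flatMap] using he'
          show dt e'.2.1 e'.2.2 ∣ D
          rw [(hVTS t (0, 1)).2.1 e' het, dt_one]
          exact hdvd t (List.mem_append_right _ ht))
      (by
        intro g hg
        have h1 := (hR g hg).2
        have h2 : ∀ l : Cb, evN D (l.map fun e => (-e.1, e.2)) g = -evN D l g := by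
          intro l
          induction l with
          | nil => simp [evN]
          | cons a l ih =>
            simp only [evN, List.map_cons, List.sum_cons] at ih ⊢
            rw [ih]
            ring
        have h3 : evN D (NLs Ts ++ (NLs Ts').map fun e => (-e.1, e.2)) g =
            evN D (NLs Ts) g + evN D ((NLs Ts').map fun e => (-e.1, e.2)) g := by
          simp only [evN, List.map_append, List.sum_append]
        rw [h3, h2, h1, add_neg_cancel]) F hF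
    have h2 : ∀ l : Cb, ((l.map fun e => (-e.1, e.2)).map
        fun e => (e.1 : ℂ) * F e.2.1 e.2.2).sum = -evF F l := by
      intro l
      induction l with
      | nil => simp [evF]
      | cons a l ih =>
        simp only [evF, List.map_cons, List.sum_cons] at ih ⊢
        rw [ih]
        push_cast
        ring
    rw [List.map_append, List.sum_append, h2] at hp
    have h3 : evF F (NLs Ts) - evF F (NLs Ts') = 0 := by
      rw [sub_eq_add_neg]
      exact hp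
    exact sub_eq_zero.1 h3
  have hO : evO (NLs Ts) = evO (NLs Ts') := hP om (hOMP D hD0)
  -- the recursion for all trees
  have hWc : ∀ t : Tr, Wc (0, 1) t = w2 (clv sx (bv sx t)) := by
    intro t
    have h1 := hOMR.2.2 (0, 1) (.pw 0) t ⟨trivial, 1, one_ne_zero, by simp [vec]⟩
    have h2 : bv sx (.pw 0) = ((0 : JR), (1 : JR)) := by
      show pv sx (Int.ofNat 0) = _
      simp [pv]
    rw [h1, h2, ((hJPV JR sx).1 (bv sx t) (bv sx t) (bv sx t)).2.2.1]
  have hrec : ∀ X : List Tr, (∀ t ∈ X, (vec t).1 ≠ 0) →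
      2 * (X.map fun t => w2 (clv sx (bv sx t))).sum = evO (NLs X) +
        ((VL X).map fun v => 2 * w3 v - evO (nv v)).sum -
        2 * (((X.map fun t => cr (0, 1) t).sum : ℚ) : ℂ) := by
    intro X
    induction X with
    | nil => intro _; simp [NLs, VL, evO]
    | cons t X ih =>
      intro hX
      have h1 := ih fun t ht => hX t (List.mem_cons_of_mem _ ht)
      have h2 := hNWL t (0, 1) (by rw [dt_one]; exact hX t List.mem_cons_self)
      rw [hWc] at h2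
      have h3 : NLs (t :: X) = NL (0, 1) t ++ NLs X := rfl
      have h4 : VL (t :: X) = vts (0, 1) t ++ VL X := rfl
      rw [h3, h4, evO_append, List.map_append, List.sum_append, List.map_cons, List.sum_cons,
        List.map_cons, List.sum_cons, mul_add, h1, h2]
      push_cast
      ring
  have e1 := hrec Ts fun t ht => hne t (List.mem_append_left _ ht)
  have e2 := hrec Ts' fun t ht => hne t (List.mem_append_right _ ht)
  rw [vertex_sum hALZ hVXA hGVX hD0 (VL Ts) hdv1] at e1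
  rw [vertex_sum hALZ hVXA hGVX hD0 (VL Ts') hdv2, hnts'] at e2
  have e3 := hCSM D (VL Ts) (VL Ts') hC (fun K => phs ((D : ℚ) / K)) fun K => hGVX.2 _
  have e5 : (Ts'.map fun t => cr (0, 1) t).sum = 0 := by
    refine List.sum_eq_zero fun x hx => ?_
    obtain ⟨t, ht, rfl⟩ := List.mem_map.1 hx
    rcases hmem' t ht with ht' | ⟨m, hm, rfl⟩
    · exact (hCRN.2.2.1 t (0, 1) (by
        rw [dt_one]; exact hne t (List.mem_append_right _ ht))).2 (hT0 t ht').1
    · obtain ⟨⟨⟨ha, hb, hc⟩, -⟩, ho⟩ := hMs m hm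
      exact hM3C m.1 m.2.1 m.2.2.1 m.2.2.2 ha hb hc (hne _ (List.mem_append_right _ ht))
  rw [e5, Rat.cast_zero, mul_zero, sub_zero] at e2
  rw [hw, e2, hO, e3] at e1
  have e6 : ((nts (VL Ts)).map JD).sum =
      (Ws.map JD).sum + 2 * (Ts.map fun t => cr (0, 1) t).sum := by
    have h1 : ((((nts (VL Ts)).map JD).sum : ℚ) : ℂ) =
        (((Ws.map JD).sum + 2 * (Ts.map fun t => cr (0, 1) t).sum : ℚ) : ℂ) := by
      rw [Rat.cast_add, Rat.cast_mul, Rat.cast_ofNat]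
      linear_combination -e1
    exact Rat.cast_injective h1
  have hcrn : ∀ x ∈ Ts.map fun t => cr (0, 1) t, 0 ≤ x := by
    intro x hx
    obtain ⟨t, ht, rfl⟩ := List.mem_map.1 hx
    exact (hCRN.2.2.1 t (0, 1) (by rw [dt_one]; exact hne t (List.mem_append_left _ ht))).1
  have e7 : 0 ≤ (Ts.map fun t => cr (0, 1) t).sum := nonneg_sum _ hcrn
  rcases hW with ⟨Vs', hpm, hfa⟩ | hlt
  swap
  · rw [e6] at hlt
    linarith
  have e8 : ((nts (VL Ts)).map JD).sum = (Ws.map JD).sum := by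
    rw [(hpm.map JD).sum_eq]
    exact sum_forall₂ (fun a b hab => hab.2.1) hfa
  have hcr0 : (Ts.map fun t => cr (0, 1) t).sum = 0 := by
    rw [e8] at e6
    linarith
  have hcr := zero_of_sum _ hcrn hcr0.le
  have hst : ∀ t ∈ Ts, T2 t ∨ ∃ a b c e, T3 t a b c e := fun t ht =>
    hSW t (hT t ht) (hne t (List.mem_append_left _ ht)) (hcr _ (List.mem_map.2 ⟨t, ht, rfl⟩))
  obtain ⟨Us, Xs, hperm, hUs, hXs, hnX⟩ := hSPX Ts hst
  rw [hnX] at hpm
  obtain ⟨Ys, hY1, hY2⟩ := hLFX _ _ (fun X : Tr × Md => X.2.vx) Xs Vs' hpm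
  have hXmem : ∀ X ∈ Xs, X.1 ∈ Ts := by
    intro X hX
    exact hperm.mem_iff.2 (List.mem_append_right _ (List.mem_map.2 ⟨X, hX, rfl⟩))
  have hYX : ∀ Y ∈ Ys, Y ∈ Xs := fun Y hY' => hY1.mem_iff.2 hY'
  have hfa2 : List.Forall₂ (fun (Y : Tr × Md) (m : Md) => Mtc D Y.2.vx (ux m)) Ys Ms := by
    have h1 : List.Forall₂ (Mtc D) (Ys.map fun X => X.2.vx) (Ms.map ux) := by
      rw [hY2]
      exact hfa
    rw [List.forall₂_map_left_iff, List.forall₂_map_right_iff] at h1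
    exact h1
  -- facts on the vertex of an element of Ys
  have hvY : ∀ Y ∈ Ys, (tot Y.2.vx).1 ∣ D ∧ Ntr Y.2.vx := by
    intro Y hY'
    have hX := hYX Y hY'
    obtain ⟨m1, m2, m3⟩ := hNT3.2 _ _ _ _ _ (hXs Y hX)
    refine ⟨?_, m3⟩
    rw [show (tot Y.2.vx).1 = (vec Y.1).1 from
      htot Y.1 (List.mem_append_left _ (hXmem Y hX)) _ m2]
    exact hdvd Y.1 (List.mem_append_left _ (hXmem Y hX))
  have hfa3 : List.Forall₂ (fun (Y : Tr × Md) (m : Md) => (Y ∈ Ys ∧ m ∈ Ms) ∧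
      Mtc D Y.2.vx (ux m)) Ys Ms := by
    refine List.forall₂_iff_get.2 ⟨hfa2.length_eq, fun i h1 h2 => ⟨⟨List.get_mem _ _,
      List.get_mem _ _⟩, hfa2.get h1 h2⟩⟩
  have hslt : ∀ (Y : Tr × Md) (m : Md), (Y ∈ Ys ∧ m ∈ Ms) ∧ Mtc D Y.2.vx (ux m) →
      slp (tot Y.2.vx) = slp (tot (ux m)) := by
    rintro Y m ⟨⟨hY', hm⟩, hK, -, -⟩
    obtain ⟨hd1, hn1⟩ := hvY Y hY'
    have hx : ux m ∈ Ws := List.mem_map.2 ⟨m, hm, rfl⟩
    rw [← (hALZ.1 D Y.2.vx hD0 hd1 hn1.1).2.1, ← (hALZ.1 D (ux m) hD0 (hWd _ hx)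
      (hWmem _ hx).2.1).2.1, hK]
  refine ⟨Us, Ys, D, hD0, ?_, hUs, ?_, ?_⟩
  · exact hperm.trans ((List.Perm.refl Us).append (hY1.map Prod.fst))
  · refine hfa3.imp fun Y m hYm => ?_
    obtain ⟨⟨hY', hm⟩, hK, hJ, hs⟩ := hYm
    have hTY := hXs Y (hYX Y hY')
    obtain ⟨hd1, hn1⟩ := hvY Y hY'
    have hx : ux m ∈ Ws := List.mem_map.2 ⟨m, hm, rfl⟩
    refine ⟨hTY, ?_, ?_⟩
    · rw [fr_ux (hOk m hm)] at hs
      exact ((fr_vx (ok_of_T hTY)).symm).trans hs
    · rw [← slp_vx hALZ hD0 (ok_of_T hTY) hd1 hn1,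
        ← slp_ux hALZ hD0 (hOk m hm) (hWd _ hx) (hWmem _ hx).2]
      exact hslt Y m ⟨⟨hY', hm⟩, hK, hJ, hs⟩
  · intro F hF
    have h3 := hP F hF
    have hUmem : ∀ x ∈ Us, x ∈ Ts := fun x hx => hperm.mem_iff.2 (List.mem_append_left _ hx)
    have s1 := sum_two F hD0 hF hNLE Us fun x hx => ⟨hUs x hx,
      hdvd x (List.mem_append_left _ (hUmem x hx))⟩
    have s2 := sum_two F hD0 hF hNLE T0 fun x hx => ⟨hT02 x hx,
      hdvd x (List.mem_append_right _ (List.mem_append_left _ hx))⟩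
    have s3 : evF F (NLs (Ys.map Prod.fst)) = evF F (NLs (Ms.map Md.tr)) := by
      rw [evF_map, evF_map, List.map_map, List.map_map]
      refine sum_forall₂ (R := fun (Y : Tr × Md) (m : Md) => (Y ∈ Ys ∧ m ∈ Ms) ∧
        Mtc D Y.2.vx (ux m)) ?_ hfa3
      rintro Y m hYm
      have hYm' := hYm
      obtain ⟨⟨hY', hm⟩, hK, hJ, hs⟩ := hYm
      have hTY := hXs Y (hYX Y hY')
      obtain ⟨hd1, hn1⟩ := hvY Y hY'
      have hx : ux m ∈ Ws := List.mem_map.2 ⟨m, hm, rfl⟩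
      have t1 := (hNLE D hD0 F hF).2 Y.1 _ _ _ _ hTY
        (hdvd Y.1 (List.mem_append_left _ (hXmem Y (hYX Y hY'))))
      have t2 := (hNLE D hD0 F hF).2 m.tr _ _ _ _ (T3_tr (hOk m hm))
        (hdvd m.tr (List.mem_append_right _ (List.mem_append_right _
          (List.mem_map.2 ⟨m, hm, rfl⟩))))
      show evF F (NL (0, 1) Y.1) = evF F (NL (0, 1) m.tr)
      rw [t1, t2]
      exact hNVE D hD0 F hF Y.2.vx (ux m) hn1 (hWmem _ hx).2 hd1 (hWd _ hx) (hslt Y m hYm') hs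
    have s4 : evF F (NLs Ts) = evF F (NLs Us) + evF F (NLs (Ys.map Prod.fst)) := by
      rw [evF_perm F (hperm.trans ((List.Perm.refl Us).append (hY1.map Prod.fst))), NLs_append,
        evF_append]
    rw [s4, hTs', NLs_append, evF_append, s1, s2, s3] at h3
    have h4 := add_right_cancel h3
    exact mul_left_cancel₀ two_ne_zero h4

end Pool.Agent.TX
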