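import Pool.Agent.TX.St
import Pool.Agent.TW.AsmA
import Pool.Agent.TW.AsmB
import Pool.Agent.TW.Rtt

/-!
Theorem X (MP_31fd3b_gt): assembly of the topological part and the theorem.
-/

namespace Pool.Agent.TX

open Pool.Agent.LibH11.Sliced Pool.Agent.MTR Pool.Agent.MTA Pool.Agent.UA Pool.Agent.UB
open Pool.Agent.TwoBr Pool.Agent.Mont Pool.Agent.TV Pool.Agent.TW
open Pool.Agent.TB hiding vec

/-- three tangles with their slopes -/
structure Tri where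
  r : Diag
  s : Diag
  t : Diag
  x : ℤ × ℤ
  y : ℤ × ℤ
  z : ℤ × ℤ

/-- rational tangles with denominators at least 2 -/
def Tri.Ok (m : Tri) : Prop :=
  (RatT m.r m.x ∧ RatT m.s m.y ∧ RatT m.t m.z) ∧ (2 ≤ |m.x.2| ∧ 2 ≤ |m.y.2| ∧ 2 ≤ |m.z.2|)

/-- the long Montesinos diagram -/
def Tri.dg (m : Tri) : Diag := cl (m.r ++ (m.s ++ m.t))

/-- the sum of the slopes -/
def Tri.sm (m : Tri) : ℚ := (m.x.1 : ℚ) / m.x.2 + (m.y.1 : ℚ) / m.y.2 + (m.z.1 : ℚ) / m.z.2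

/-- odd denominators -/
def Tri.Od (m : Tri) : Prop := Odd m.x.2 ∧ Odd m.y.2 ∧ Odd m.z.2

namespace AsmY

open TW.RTTaux

/-- three rational tangles and the tree `M3`, with the slopes -/
theorem rcy (h1 : FFL_Stmt) (h2 : FCG_Stmt) (h3 : RTI_Stmt) (T1 T2 T3 : Tr) (R1 : T1.Rat)
    (R2 : T2.Rat) (R3 : T3.Rat) (v1 : 2 ≤ |(vec T1).2|) (v2 : 2 ≤ |(vec T2).2|)
    (v3 : 2 ≤ |(vec T3).2|) : ∃ m : Md, m.Ok ∧
      ((vec m.1).1 = (vec T1).2 ∧ (vec m.2.1).1 = (vec T2).2 ∧ (vec m.2.2.1).1 = (vec T3).2) ∧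
      m.sg = slp (vec T1) + slp (vec T2) + slp (vec T3) ∧
      EqD 2 (T1.dg ++ (T2.dg ++ T3.dg)) m.tr.dg := by
  obtain ⟨a, e1, rfl, ha, wa⟩ := form R1 v1
  obtain ⟨b, e2, rfl, hb, wb⟩ := form R2 v2
  obtain ⟨c, e3, rfl, hc, wc⟩ := form R3 v3
  rw [← wa] at v1
  rw [← wb] at v2
  rw [← wc] at v3
  refine ⟨(a, b, c, e1 + (e2 + e3)), ⟨⟨ha, hb, hc⟩, v1, v2, v3⟩, ⟨wa, wb, wc⟩, ?_, ?_⟩
  · rw [AsmA.slp_pw e1 (AsmA.ne0 v1), AsmA.slp_pw e2 (AsmA.ne0 v2), AsmA.slp_pw e3 (AsmA.ne0 v3)]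
    unfold Md.sg
    push_cast
    ring
  · show EqD 2 ((rotD a.dg ++ ht e1) ++ ((rotD b.dg ++ ht e2) ++ (rotD c.dg ++ ht e3)))
      (rotD a.dg ++ (rotD b.dg ++ (rotD c.dg ++ ht (e1 + (e2 + e3)))))
    have ca : cnt 2 (rotD a.dg) = some 2 := (h2.2.2.2.1 _ (cnt_dg h2 a)).1
    have cb : cnt 2 (rotD b.dg) = some 2 := (h2.2.2.2.1 _ (cnt_dg h2 b)).1
    have cc : cnt 2 (rotD c.dg) = some 2 := (h2.2.2.2.1 _ (cnt_dg h2 c)).1
    have p1 := push h3 h1 h2 hc e2 (cnt_ht e3) (ht_add e2 e3)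
    have c1 : cnt 2 (ht e2 ++ (rotD c.dg ++ ht e3)) = some 2 :=
      cnt_comp (cnt_ht e2) (cnt_comp cc (cnt_ht e3))
    have p2 := h2.2.1 _ _ _ _ (EqD.refl (rotD b.dg)) p1 cb c1
    have c2 := cnt_comp cb c1
    have p3 := h2.2.1 _ _ _ _ (EqD.refl (ht e1)) p2 (cnt_ht e1) c2
    have p4 := push h3 h1 h2 hb e1 (cnt_comp cc (cnt_ht (e2 + e3)))
      (push h3 h1 h2 hc e1 (cnt_ht (e2 + e3)) (ht_add e1 (e2 + e3)))
    have p5 := h2.2.1 _ _ _ _ (EqD.refl (rotD a.dg)) (p3.trans p4) ca (cnt_comp (cnt_ht e1) c2)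
    rw [List.append_assoc, List.append_assoc]
    exact p5

/-- a Montesinos diagram and its tree -/
theorem tri_tr (hR : RTT_Stmt) (h1 : FFL_Stmt) (h2 : FCG_Stmt) (h3 : RTI_Stmt) {m : Tri}
    (hm : m.Ok) : cnt 1 m.dg = some 1 ∧ ∃ n : Md, n.Ok ∧
      ((vec n.1).1 = m.x.2 ∧ (vec n.2.1).1 = m.y.2 ∧ (vec n.2.2.1).1 = m.z.2) ∧ n.sg = m.sm ∧
      EqD 1 m.dg (cl n.tr.dg) := by
  obtain ⟨⟨r1, r2, r3⟩, d1, d2, d3⟩ := hm
  obtain ⟨c1, T1, R1, V1, E1⟩ := hR _ _ r1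
  obtain ⟨c2, T2, R2, V2, E2⟩ := hR _ _ r2
  obtain ⟨c3, T3, R3, V3, E3⟩ := hR _ _ r3
  obtain ⟨n, k1, ⟨wa, wb, wc⟩, k3, hE⟩ := rcy h1 h2 h3 T1 T2 T3 R1 R2 R3
    (by rw [V1]; exact d1) (by rw [V2]; exact d2) (by rw [V3]; exact d3)
  rw [V1] at wa
  rw [V2] at wb
  rw [V3] at wc
  rw [V1, V2, V3] at k3
  have c23 : cnt 2 (m.s ++ m.t) = some 2 := by rw [cnt_app c2, c3]
  have c123 : cnt 2 (m.r ++ (m.s ++ m.t)) = some 2 := by rw [cnt_app c1, c23]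
  have e1 : EqD 2 (m.r ++ (m.s ++ m.t)) n.tr.dg :=
    (h2.2.1 _ _ _ _ E1 (h2.2.1 _ _ _ _ E2 E3 c2 c3) c1 c23).trans hE
  refine ⟨(h2.2.2.2.1 _ c123).2, n, k1, ⟨wa, wb, wc⟩, ?_, (h2.1 _ _ e1 c123).2⟩
  rw [k3]
  rfl

/-- stacks of equivalent long diagrams -/
theorem flat_congr (h2 : FCG_Stmt) {l l' : List Diag}
    (h : List.Forall₂ (fun x y => cnt 1 x = some 1 ∧ EqD 1 x y) l l') :
    cnt 1 l.flatten = some 1 ∧ EqD 1 l.flatten l'.flatten := by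
  induction h with
  | nil => exact ⟨rfl, EqD.refl _⟩
  | cons h1 _ ih =>
    rw [List.flatten_cons, List.flatten_cons]
    exact ⟨by rw [cnt_app h1.1]; exact ih.1, h2.2.2.1 _ _ _ _ h1.2 ih.2 h1.1 ih.1⟩

theorem cls_eq (l : List Tr) : cls l = (l.map fun t => cl t.dg).flatten := rfl

theorem cls_cnt (h2 : FCG_Stmt) (l : List Tr) : cnt 1 (cls l) = some 1 := h2.2.2.2.2.2.1 l

/-- the summands of a long knot are long knots -/
theorem summand (hL : LKB_Stmt) {u v w : Diag} (hu : cnt 1 u = some 1) (hv : cnt 1 v = some 1)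
    (h : IsLongKnot (u ++ (v ++ w))) : IsLongKnot v := by
  have := hL u w v 0 1 hv hu (by norm_num) (by rw [sh_zero, List.append_assoc]; exact h)
  exact this.2

/-- the summands of a long stack are long knots -/
theorem flat_long (hL : LKB_Stmt) : ∀ (l : List Diag) (u : Diag), cnt 1 u = some 1 →
    (∀ x ∈ l, cnt 1 x = some 1) → IsLongKnot (u ++ l.flatten) → ∀ x ∈ l, IsLongKnot x := by
  intro l
  induction l with
  | nil => intro _ _ _ _ x hx; exact absurd hx (by simp)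
  | cons y l ih =>
    intro u hu hl h x hx
    rw [List.flatten_cons] at h
    have hy := hl y List.mem_cons_self
    rcases List.mem_cons.1 hx with rfl | hx
    · exact summand hL hu hy h
    · refine ih (u ++ y) (by rw [cnt_app hu]; exact hy)
        (fun z hz => hl z (List.mem_cons_of_mem _ hz)) ?_ x hx
      rw [List.append_assoc]
      exact h

theorem exists_forall₂ {α β : Type} {R : β → α → Prop} : ∀ l : List α,
    (∀ x ∈ l, ∃ y, R y x) → ∃ l' : List β, List.Forall₂ R l' l := by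
  intro l
  induction l with
  | nil => intro _; exact ⟨[], List.Forall₂.nil⟩
  | cons x l ih =>
    intro h
    obtain ⟨y, hy⟩ := h x List.mem_cons_self
    obtain ⟨l', hl'⟩ := ih fun z hz => h z (List.mem_cons_of_mem _ hz)
    exact ⟨y :: l', List.Forall₂.cons hy hl'⟩

theorem forall₂_mem {α β : Type} {R : α → β → Prop} {l : List α} {l' : List β}
    (h : List.Forall₂ R l l') :
    List.Forall₂ (fun x y => x ∈ l ∧ y ∈ l' ∧ R x y) l l' :=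
  List.forall₂_iff_get.2 ⟨h.length_eq, fun _ h1 h2 =>
    ⟨List.get_mem _ _, List.get_mem _ _, h.get h1 h2⟩⟩

theorem forall₂_comp {α β γ : Type} {R : α → β → Prop} {S : β → γ → Prop} {l : List α}
    {l' : List β} {l'' : List γ} (h : List.Forall₂ R l l') :
    List.Forall₂ S l' l'' → List.Forall₂ (fun x z => ∃ y, R x y ∧ S y z) l l'' := by
  intro h2
  induction h generalizing l'' with
  | nil =>
    cases h2
    exact List.Forall₂.nil
  | cons h3 _ ih =>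
    cases h2 with
    | cons h4 h5 => exact List.Forall₂.cons ⟨_, h3, h4⟩ (ih h5)

theorem forall₂_exists {α β γ : Type} {R : α → β → γ → Prop} {l : List α} {l' : List β}
    (h : List.Forall₂ (fun x y => ∃ z, R x y z) l l') :
    ∃ l'' : List γ, List.Forall₂ (fun z y => ∃ x, R x y z) l'' l' ∧
      List.Forall₂ (fun x z => ∃ y, R x y z) l l'' := by
  induction h with
  | nil => exact ⟨[], List.Forall₂.nil, List.Forall₂.nil⟩
  | cons h1 _ ih =>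
    obtain ⟨z, hz⟩ := h1
    obtain ⟨l'', k1, k2⟩ := ih
    exact ⟨z :: l'', List.Forall₂.cons ⟨_, hz⟩ k1, List.Forall₂.cons ⟨_, hz⟩ k2⟩

end AsmY

open AsmB AsmY in
/-- **Theorem X**, for diagrams. -/
theorem separate_x (hA : ALGX_Stmt) (hF : FTOP_Stmt) (hT : FTA_Stmt) (hI : FIT_Stmt)
    (hC : FCG_Stmt) (hL : LKB_Stmt) (hK : KDT_Stmt) (hSYF : SYF_Stmt)
    (hCMB : CMB_Stmt) (hTOP3 : TOP3_Stmt) (hMTM : MTM_Stmt)
    (hTOPW : TOPW_Stmt) (hODM : ODM_Stmt) (hRTT : RTT_Stmt) (hFFL : FFL_Stmt) (hRTI : RTI_Stmt)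
    (hPCX : PCX_Stmt) (t : Diag) (ht : Arb t) (h : IsLongKnot (cl t)) (ws : List Diag)
    (hws : ∀ w ∈ ws, IsLongKnot w ∧ minima w ≤ 1) (ms : List Tri) (hms : ∀ m ∈ ms, m.Ok)
    (hnd : (ms.map Tri.sm).Nodup) (h' : IsLongKnot (ws.flatten ++ (ms.map Tri.dg).flatten))
    (hv : ∀ v : Knot → ℚ, IsFiniteType v →
      v (ofDiag (cl t) h) = v (ofDiag (ws.flatten ++ (ms.map Tri.dg).flatten) h')) :
    ∃ ns : List Diag,
      List.Forall₂ (fun n (m : Tri) => n = m.dg ∨ (m.Od ∧ n = flipD m.dg)) ns ms ∧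
      EqD 1 (cl t) (ws.flatten ++ ns.flatten) := by
  -- the arborescent knot
  obtain ⟨T, hT1⟩ := hT.2.2.2.2.2 t ht
  have h1 : EqD 1 (cl t) (cl T.dg) := (hC.1 t T.dg hT1 (hC.2.2.2.2.2.2 t ht)).2
  obtain ⟨Ts, h2, h3⟩ := hF T (h1.isLongKnot h)
  have h4 : EqD 1 (cl t) (cls Ts) := h1.trans h3
  -- the 2-bridge knots
  obtain ⟨Ts', h5, h6, h6c⟩ := words hK hC ws hws
  -- the Montesinos knots
  have hcm : ∀ x ∈ ms.map Tri.dg, cnt 1 x = some 1 := by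
    intro x hx
    obtain ⟨m, hm, rfl⟩ := List.mem_map.1 hx
    exact (tri_tr hRTT hFFL hC hRTI (hms m hm)).1
  have hlm : ∀ m ∈ ms, IsLongKnot m.dg := fun m hm =>
    flat_long hL (ms.map Tri.dg) ws.flatten h6c hcm h' _ (List.mem_map.2 ⟨m, hm, rfl⟩)
  obtain ⟨Ns, hNs0⟩ := exists_forall₂ (R := fun (n : Md) (m : Tri) => cnt 1 m.dg = some 1 ∧ n.Ok ∧
      ((vec n.1).1 = m.x.2 ∧ (vec n.2.1).1 = m.y.2 ∧ (vec n.2.2.1).1 = m.z.2) ∧ n.sg = m.sm ∧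
      EqD 1 m.dg (cl n.tr.dg)) ms (fun m hm => by
    obtain ⟨k1, n, k2⟩ := tri_tr hRTT hFFL hC hRTI (hms m hm)
    exact ⟨n, k1, k2⟩)
  have hNs := forall₂_mem hNs0
  have hNok : ∀ n ∈ Ns, (n.Ok ∧ Odd (vec n.tr).1) ∧ IsLongKnot (cl n.tr.dg) := by
    intro n hn
    obtain ⟨m, hm⟩ : ∃ m, n ∈ Ns ∧ m ∈ ms ∧ cnt 1 m.dg = some 1 ∧ n.Ok ∧
        ((vec n.1).1 = m.x.2 ∧ (vec n.2.1).1 = m.y.2 ∧ (vec n.2.2.1).1 = m.z.2) ∧
        n.sg = m.sm ∧ EqD 1 m.dg (cl n.tr.dg) := by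
      have key : ∀ {l : List Md} {l' : List Tri} {R : Md → Tri → Prop}, List.Forall₂ R l l' →
          ∀ n ∈ l, ∃ m, R n m := by
        intro l l' R hR
        induction hR with
        | nil => intro n hn; exact absurd hn (by simp)
        | cons k1 _ ih =>
          intro n hn
          rcases List.mem_cons.1 hn with rfl | hn
          · exact ⟨_, k1⟩
          · exact ih n hn
      exact key hNs n hn
    obtain ⟨-, hmm, -, hok, -, -, hE⟩ := hm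
    have hl : IsLongKnot (cl n.tr.dg) := hE.isLongKnot (hlm m hmm)
    exact ⟨⟨hok, hODM n.1 n.2.1 n.2.2.1 n.2.2.2 hok.1.1 hok.1.2.1 hok.1.2.2 hok.2.1 hok.2.2.1
      hok.2.2.2 hl⟩, hl⟩
  have hsg : Ns.map Md.sg = ms.map Tri.sm := by
    have key : ∀ {l : List Md} {l' : List Tri} {R : Md → Tri → Prop},
        (∀ n m, R n m → n.sg = m.sm) → List.Forall₂ R l l' → l.map Md.sg = l'.map Tri.sm := by
      intro l l' R hRR hR
      induction hR with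
      | nil => rfl
      | cons k1 _ ih => rw [List.map_cons, List.map_cons, hRR _ _ k1, ih]
    exact key (fun n m k => k.2.2.2.1) hNs0
  have hfl : EqD 1 (ms.map Tri.dg).flatten (cls (Ns.map Md.tr)) := by
    rw [cls_eq, List.map_map]
    refine (flat_congr hC (l := ms.map Tri.dg) ?_).2
    rw [List.forall₂_map_left_iff, List.forall₂_map_right_iff]
    exact hNs0.flip.imp fun m n k => ⟨k.1, k.2.2.2.2⟩
  -- lists of the right lengths
  set n := Ts'.length + Ns.length with hn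
  set T0 := Ts' ++ List.replicate Ts.length (.pw 1) with hT0
  have h7 : EqD 1 (cl t) (cls (Ts ++ List.replicate n (.pw 1))) :=
    h4.trans (AsmT.pad hC hI Ts n).symm
  have h8' : EqD 1 ws.flatten (cls T0) := h6.trans (AsmT.pad hC hI Ts' Ts.length).symm
  have h8 : EqD 1 (ws.flatten ++ (ms.map Tri.dg).flatten) (cls (T0 ++ Ns.map Md.tr)) := by
    rw [AsmT.cls_append]
    exact hC.2.2.1 _ _ _ _ h8' hfl h6c (by rw [hfl.cnt_eq]; exact cls_cnt hC _)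
  have hv' : ∀ v : Knot → ℂ, IsFiniteType v →
      v (ofDiag _ (h7.isLongKnot h)) = v (ofDiag _ (h8.isLongKnot h')) := by
    intro v hv1
    rw [← h7.knot h, ← h8.knot h']
    exact complex_of_rat hv v hv1
  have hlp : ∀ m : ℕ, ∀ x ∈ List.replicate m (Tr.pw 1), IsLongKnot (cl x.dg) := by
    intro m x hx
    rw [(List.mem_replicate.1 hx).2]
    exact ((hI.2.2.1 1 (by norm_num)).2).symm.isLongKnot long_nil
  have h0 : ∀ x ∈ T0, (x.Rat ∧ Odd (vec x).1) ∧ IsLongKnot (cl x.dg) := by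
    intro x hx
    rcases List.mem_append.1 hx with hx | hx
    · exact ⟨⟨(h5 x hx).1, (h5 x hx).2.1⟩, (h5 x hx).2.2⟩
    · refine ⟨?_, hlp _ x hx⟩
      rw [(List.mem_replicate.1 hx).2]
      exact ⟨trivial, ⟨-1, by simp [vec]⟩⟩
  have hlT : ∀ x ∈ Ts ++ List.replicate n (.pw 1), IsLongKnot (cl x.dg) := by
    intro x hx
    rcases List.mem_append.1 hx with hx | hx
    · exact (h2 x hx).2
    · exact hlp _ x hx
  obtain ⟨Us, Xs, D, hD, hpm, hU2, hXN, hFF⟩ :=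
    hA (Ts ++ List.replicate n (.pw 1)) T0 Ns (h7.isLongKnot h) (h8.isLongKnot h')
      (by simp [hn, hT0]; ring)
      (by
        intro x hx
        rcases List.mem_append.1 hx with hx | hx
        · exact (h2 x hx).1
        · rw [(List.mem_replicate.1 hx).2]
          exact ⟨trivial, by simp [Tr.kids]⟩)
      (fun x hx => (h0 x hx).1) (fun n hn => (hNok n hn).1) (by rw [hsg]; exact hnd) hv'
  have hlU : ∀ x ∈ Us, IsLongKnot (cl x.dg) := fun x hx =>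
    hlT x (hpm.mem_iff.2 (List.mem_append_left _ hx))
  have hlX : ∀ X ∈ Xs, IsLongKnot (cl X.1.dg) := fun X hX =>
    hlT X.1 (hpm.mem_iff.2 (List.mem_append_right _ (List.mem_map.2 ⟨X, hX, rfl⟩)))
  have hT2r : ∀ x : Tr, x.Rat → TV.T2 x := fun x hx => AsmA.T2_of_rat hx
  -- the 2-bridge parts
  obtain ⟨xs, hxs, x1, x2⟩ := hCMB Us T0 (by
      intro x hx
      rcases List.mem_append.1 hx with hx | hx
      · exact ⟨hU2 x hx, hlU x hx⟩
      · exact ⟨hT2r x (h0 x hx).1.1, (h0 x hx).2⟩)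
    (fun w => hFF (FF w) (hSYF.1 w D hD))
  -- the Montesinos parts
  have hXm : List.Forall₂ (fun (X : Tr × Md) (m : Tri) => ∃ k : Diag,
      (k = m.dg ∨ (m.Od ∧ k = flipD m.dg)) ∧ EqD 1 (cl X.1.dg) k) Xs ms := by
    refine (forall₂_comp (forall₂_mem hXN) hNs).imp ?_
    rintro X m ⟨n, ⟨hX, hn, hXT, hfr, hsgm⟩, -, hm, cm, -, ⟨wa, wb, wc⟩, -, hE⟩
    obtain ⟨⟨hok, -⟩, hln⟩ := hNok n hn
    rcases parts hMTM hTOPW hTOP3 hXT (hlX X hX) hok.1.1 hok.1.2.1 hok.1.2.2 hok.2.1 hok.2.2.1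
      hok.2.2.2 hln hfr hsgm hC with hk | ⟨ho, hk⟩
    · exact ⟨m.dg, Or.inl rfl, hk.trans hE.symm⟩
    · refine ⟨flipD m.dg, Or.inr ⟨⟨wa ▸ ho.1, wb ▸ ho.2.1, wc ▸ ho.2.2⟩, rfl⟩, ?_⟩
      exact hk.trans (EqD_flip hE cm).symm
  obtain ⟨ns, hns1, hns2⟩ := forall₂_exists hXm
  refine ⟨ns, hns1.imp fun n m ⟨X, k1, _⟩ => k1, ?_⟩
  have cX : ∀ X : Tr × Md, cnt 1 (cl X.1.dg) = some 1 := fun X =>
    (hC.2.2.2.1 _ (hC.2.2.2.2.1 X.1)).2
  have g1 : EqD 1 (cls (Xs.map Prod.fst)) ns.flatten := by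
    rw [cls_eq, List.map_map]
    refine (flat_congr hC (l' := ns) ?_).2
    rw [List.forall₂_map_left_iff]
    exact hns2.imp fun X n ⟨m, _, k2⟩ => ⟨cX X, k2⟩
  have g2 : EqD 1 (cls (Us ++ Xs.map Prod.fst)) (ws.flatten ++ ns.flatten) := by
    rw [AsmT.cls_append]
    exact hC.2.2.1 _ _ _ _ (x1.trans (x2.symm.trans h8'.symm)) g1 (cls_cnt hC _) (cls_cnt hC _)
  exact (h7.trans (hPCX.1 _ _ hpm)).trans g2

end Pool.Agent.TX
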