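import Pool.Agent.TW.StT

/-!
Theorem X (MP_31fd3b_gt): rational finite type invariants separate the connected sums of 2-bridge
knots and Montesinos knots with three rational tangles and pairwise different sums of slopes from
every arborescent knot (up to the orientation of the summands with three odd denominators).
Definitions.
-/

namespace Pool.Agent.TX

open Pool.Agent.LibH11.Sliced Pool.Agent.MTR Pool.Agent.MTA Pool.Agent.UA Pool.Agent.UB
open Pool.Agent.TwoBr Pool.Agent.Mont Pool.Agent.TV Pool.Agent.TW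
open Pool.Agent.TB hiding vec

/-- the data of a Montesinos knot with three tangles -/
abbrev Md : Type := Tr × Tr × Tr × ℤ

/-- its tree -/
def Md.tr (m : Md) : Tr := M3 m.1 m.2.1 m.2.2.1 m.2.2.2

/-- rational tangles with denominators at least 2 -/
def Md.Ok (m : Md) : Prop :=
  (m.1.Rat ∧ m.2.1.Rat ∧ m.2.2.1.Rat) ∧
    (2 ≤ |(vec m.1).1| ∧ 2 ≤ |(vec m.2.1).1| ∧ 2 ≤ |(vec m.2.2.1).1|)

/-- the sum of the slopes -/
def Md.sg (m : Md) : ℚ := sr m.1 + sr m.2.1 + sr m.2.2.1 - m.2.2.2

/-- the fractional parts of the slopes -/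
def Md.fr (m : Md) : List ℚ := ([sr m.1, sr m.2.1, sr m.2.2.1] : List ℚ).map Int.fract

/-- the vertex of the tree of the data -/
def Md.vx (m : Md) : Vx := v0 m.1 m.2.1 m.2.2.1 m.2.2.2

/-- `T` is a closed tree with these data -/
def Md.T (m : Md) (t : Tr) : Prop := T3 t m.1 m.2.1 m.2.2.1 m.2.2.2

end Pool.Agent.TX
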