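import Pool.Agent.TX.St

/-!
# The connected sum of long diagrams is commutative; the order of the summands
-/

set_option autoImplicit false

namespace Pool.Agent.TX

open Pool.Agent.LibH11.Sliced Pool.Agent.MTR Pool.Agent.MTA Pool.Agent.UA Pool.Agent.UB
open Pool.Agent.TwoBr Pool.Agent.Mont Pool.Agent.TV Pool.Agent.TW
open Pool.Agent.TB hiding vec

namespace GCXm

/-- counts of a concatenation of long diagrams -/
theorem cnt_flat : ∀ l : List Diag, (∀ w ∈ l, cnt 1 w = some 1) → cnt 1 l.flatten = some 1 := by
  intro l
  induction l with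
  | nil => intro _; rfl
  | cons w l ih =>
    intro h
    rw [List.flatten_cons, cnt_append, h w (by simp)]
    simp only [Option.bind_some]
    exact ih fun v hv => h v (List.mem_cons_of_mem _ hv)

end GCXm

open GCXm

theorem t_GCX (h1 : PTX_Stmt) : GCX_Stmt := by
  intro f g hf hg
  obtain ⟨P, hP⟩ := h1 g 1 1 hg
  obtain ⟨h2, h3, -, h4⟩ := hP (false, 0) (by simp [IsPort])
  have e : P (false, 0) = (true, 0) := by
    rcases hp : P (false, 0) with ⟨b, j⟩
    rw [hp] at h2 h3
    have hj : j = 0 := by
      unfold IsPort at h2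
      cases b <;> simp at h2 <;> exact h2
    subst hj
    cases b
    · exact absurd rfl h3
    · rfl
  have h5 := h4 f hf
  rw [e] at h5
  simp only [att, Bool.false_eq_true, if_false, if_true, sh_zero, reduceCtorEq] at h5
  exact h5

theorem t_PCX (h1 : GCX_Stmt) (h2 : FCG_Stmt) : PCX_Stmt := by
  obtain ⟨-, -, hc, hcl, hdg, -, -⟩ := h2
  have key : ∀ l l' : List Diag, l.Perm l' → (∀ w ∈ l, cnt 1 w = some 1) →
      EqD 1 l.flatten l'.flatten := by
    intro l l' h
    induction h with
    | nil => intro _; exact EqD.refl _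
    | cons x h ih =>
      intro hw
      rw [List.flatten_cons, List.flatten_cons]
      refine (ih fun w hw' => hw w (List.mem_cons_of_mem _ hw')).left x ?_
      exact hw x (by simp)
    | swap x y l =>
      intro hw
      rw [List.flatten_cons, List.flatten_cons, List.flatten_cons, List.flatten_cons,
        ← List.append_assoc, ← List.append_assoc]
      have hx : cnt 1 x = some 1 := hw x (by simp)
      have hy : cnt 1 y = some 1 := hw y (by simp)
      refine (h1 y x hy hx).right _ ?_
      rw [cnt_append, cnt_append, hy]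
      simp only [Option.bind_some, hx]
      rw [cnt_flat l fun w hw' => hw w (by simp [hw'])]
      simp
    | trans h1 h2 ih1 ih2 =>
      intro hw
      exact (ih1 hw).trans (ih2 fun w hw' => hw w (h1.mem_iff.2 hw'))
  refine ⟨fun l l' h => ?_, key⟩
  unfold cls
  refine key _ _ (h.map _) ?_
  intro w hw
  obtain ⟨T, -, rfl⟩ := List.mem_map.1 hw
  exact (hcl _ (hdg T)).2

end Pool.Agent.TX
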