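import Pool.Agent.TX.St

/-!
PTX: every port has a partner, and a long diagram slides from a port to its partner.
-/

namespace Pool.Agent.TX

open Pool.Agent.LibH11.Sliced Pool.Agent.MTR Pool.Agent.MTA Pool.Agent.UA Pool.Agent.UB
open Pool.Agent.TwoBr Pool.Agent.Mont Pool.Agent.TV Pool.Agent.TW
open Pool.Agent.TB hiding vec

namespace PTXAux

/-- the rotation -/
def rr (b b' : Bool) (c : Diag) : Diag := if b' = b then pD 1 c else c

/-- long diagrams slide from `p` to `q` -/
def R (d : Diag) (n : ℕ) (p q : Bool × ℕ) : Prop :=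
  ∀ c : Diag, cnt 1 c = some 1 → EqD n (att d c p) (att d (rr p.1 q.1 c) q)

/-- `P` is the map of the partners -/
def Good (d : Diag) (n m : ℕ) (P : Bool × ℕ → Bool × ℕ) : Prop :=
  ∀ p, IsPort n m p → IsPort n m (P p) ∧ P p ≠ p ∧ P (P p) = p ∧ R d n p (P p)

/-- corresponding ports of `(k, i) :: d'` and of `d'` -/
def Cor (k : Kind) (i : ℕ) (d' : Diag) (n : ℕ) (p q : Bool × ℕ) : Prop :=
  p.1 = q.1 ∧ ∀ c : Diag, cnt 1 c = some 1 → EqD n (att ((k, i) :: d') c p) ((k, i) :: att d' c q)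

lemma cnt_rr (h2 : RCX_Stmt) (b b' : Bool) {c : Diag} (hc : cnt 1 c = some 1) :
    cnt 1 (rr b b' c) = some 1 := by
  unfold rr
  split_ifs
  · exact (h2 c hc).1
  · exact hc

lemma cnt_shc {c : Diag} (hc : cnt 1 c = some 1) {j n : ℕ} (hj : j < n) :
    cnt n (sh j c) = some n := by
  have h := cnt_sh j c 1
  rw [hc] at h
  have h1 := cnt_widen (n - 1 - j) _ _ _ h
  have e : 1 + j + (n - 1 - j) = n := by omega
  rw [e] at h1
  exact h1

lemma cor_top (k : Kind) (i : ℕ) (d' : Diag) (n j : ℕ) :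
    Cor k i d' n (true, j) (true, j) :=
  ⟨rfl, fun _ _ => EqD.refl _⟩

lemma cor_bot {k : Kind} {i : ℕ} {d' : Diag} {n m j j' : ℕ} (hd : cnt n ((k, i) :: d') = some m)
    (hj : j < n) (h : ∀ c : Diag, cnt 1 c = some 1 →
      EqD n (sh j c ++ [(k, i)]) ([(k, i)] ++ sh j' c)) :
    Cor k i d' n (false, j) (false, j') := by
  refine ⟨rfl, fun c hc => ?_⟩
  have h1 := (h c hc).right d' (by
    rw [List.append_assoc, cnt_app (cnt_shc hc hj)]
    show cnt n ((k, i) :: d') ≠ none
    rw [hd]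
    simp)
  rw [List.append_assoc] at h1
  exact h1

lemma glue (h2 : RCX_Stmt) {k : Kind} {i : ℕ} {d' : Diag} {n n' : ℕ}
    (hn : cnt n [(k, i)] = some n') {p p' q q' : Bool × ℕ} (h : Cor k i d' n p q)
    (h' : Cor k i d' n p' q') (hR : R d' n' q q') : R ((k, i) :: d') n p p' := by
  intro c hc
  have e1 := h.2 c hc
  have e2 := (hR c hc).left [(k, i)] hn
  have e3 := h'.2 (rr q.1 q'.1 c) (cnt_rr h2 _ _ hc)
  rw [h.1, h'.1]
  exact e1.trans (e2.trans e3.symm)

/-! ### Crossings -/

lemma case_crs (h1 : SLX_Stmt) (h2 : RCX_Stmt) {e : Bool} {i n m : ℕ} {d' : Diag}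
    (hi : i + 2 ≤ n) (hd : cnt n ((.crs e, i) :: d') = some m) {P' : Bool × ℕ → Bool × ℕ}
    (hP : Good d' n m P') : ∃ P, Good ((.crs e, i) :: d') n m P := by
  obtain ⟨τ, hτ⟩ : ∃ τ : Bool × ℕ → Bool × ℕ, τ = fun p => (p.1, if p.1 then p.2 else swp i p.2) :=
    ⟨_, rfl⟩
  have hss : ∀ j, swp i (swp i j) = j := by
    intro j
    unfold swp
    split_ifs <;> omega
  have hττ : ∀ p, τ (τ p) = p := by
    rintro ⟨b, j⟩
    rw [hτ]
    cases b
    · simp [hss]
    · simp
  have hτp : ∀ p, IsPort n m p → IsPort n m (τ p) := by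
    rintro ⟨b, j⟩ hp
    rw [hτ]
    cases b
    · have hj : j < n := hp
      show swp i j < n
      unfold swp
      split_ifs <;> omega
    · exact hp
  have hC : ∀ p, IsPort n m p → Cor (.crs e) i d' n p (τ p) := by
    rintro ⟨b, j⟩ hp
    rw [hτ]
    cases b
    · have hj : j < n := hp
      exact cor_bot hd hj fun c hc => (h1 c hc n i).1 e hi j hj
    · exact cor_top _ _ _ _ _
  have hn : cnt n [(.crs e, i)] = some n := by
    rw [cnt_one (show i + (Kind.crs e).ins ≤ n from hi)]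
    show some (n - 2 + 2) = some n
    rw [Nat.sub_add_cancel (by omega)]
  refine ⟨fun p => τ (P' (τ p)), fun p hp => ?_⟩
  obtain ⟨a1, a2, a3, a4⟩ := hP (τ p) (hτp p hp)
  refine ⟨hτp _ a1, ?_, ?_, ?_⟩
  · intro h
    apply a2
    have h' : τ (τ (P' (τ p))) = τ p := congrArg τ h
    rwa [hττ] at h'
  · show τ (P' (τ (τ (P' (τ p))))) = p
    rw [hττ, a3, hττ]
  · have h3 := hC (τ (P' (τ p))) (hτp _ a1)
    rw [hττ] at h3
    exact glue h2 hn (hC p hp) h3 a4

/-! ### Two new strands -/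

/-- the ports with two more strands at the bottom -/
def io (i : ℕ) (q : Bool × ℕ) : Bool × ℕ := (q.1, if q.1 then q.2 else upp i q.2)

/-- the ports with two strands less at the bottom -/
def ko (i : ℕ) (p : Bool × ℕ) : Bool × ℕ := (p.1, if p.1 then p.2 else if p.2 < i then p.2 else p.2 - 2)

lemma ko_io (i : ℕ) (q : Bool × ℕ) : ko i (io i q) = q := by
  obtain ⟨b, j⟩ := q
  cases b
  · unfold ko io upp
    simp only [Bool.false_eq_true, if_false, Prod.mk.injEq, true_and]
    split_ifs <;> omega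
  · rfl

lemma io_ko (i : ℕ) (p : Bool × ℕ) (h : p ≠ (false, i)) (h' : p ≠ (false, i + 1)) :
    io i (ko i p) = p := by
  obtain ⟨b, j⟩ := p
  cases b
  · have e1 : j ≠ i := fun e => h (by rw [e])
    have e2 : j ≠ i + 1 := fun e => h' (by rw [e])
    unfold ko io upp
    simp only [Bool.false_eq_true, if_false, Prod.mk.injEq, true_and]
    split_ifs <;> omega
  · rfl

lemma io_ne (i : ℕ) (q : Bool × ℕ) : io i q ≠ (false, i) ∧ io i q ≠ (false, i + 1) := by
  obtain ⟨b, j⟩ := q
  cases b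
  · unfold io upp
    simp only [Bool.false_eq_true, if_false, ne_eq, Prod.mk.injEq, true_and]
    split_ifs <;> omega
  · unfold io
    simp

lemma io_port {i n m : ℕ} {q : Bool × ℕ} (h : IsPort n m q) : IsPort (n + 2) m (io i q) := by
  obtain ⟨b, j⟩ := q
  cases b
  · have h' : j < n := h
    show upp i j < n + 2
    unfold upp
    split_ifs <;> omega
  · exact h

lemma ko_port {i n m : ℕ} (hi : i ≤ n) {p : Bool × ℕ} (h : IsPort (n + 2) m p)
    (h1 : p ≠ (false, i)) (h2 : p ≠ (false, i + 1)) : IsPort n m (ko i p) := by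
  obtain ⟨b, j⟩ := p
  cases b
  · have h' : j < n + 2 := h
    have e1 : j ≠ i := fun e => h1 (by rw [e])
    have e2 : j ≠ i + 1 := fun e => h2 (by rw [e])
    show (if j < i then j else j - 2) < n
    split_ifs <;> omega
  · exact h

/-! ### Maxima -/

lemma case_cap (h1 : SLX_Stmt) (h2 : RCX_Stmt) {i n m : ℕ} {d' : Diag}
    (hi : i ≤ n) (hd : cnt (n + 2) ((.cap, i) :: d') = some m) {P' : Bool × ℕ → Bool × ℕ}
    (hP : Good d' n m P') : ∃ P, Good ((.cap, i) :: d') (n + 2) m P := by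
  have hn : cnt (n + 2) [(.cap, i)] = some n := by
    rw [cnt_one (show i + Kind.cap.ins ≤ n + 2 by show i + 2 ≤ n + 2; omega)]
    show some (n + 2 - 2 + 0) = some n
    rw [Nat.add_sub_cancel, Nat.add_zero]
  have hi2 : i + 2 ≤ n + 2 := by omega
  -- the correspondence
  have hC : ∀ q, IsPort n m q → Cor .cap i d' (n + 2) (io i q) q := by
    rintro ⟨b, j⟩ hq
    cases b
    · have hj : j < n := hq
      have hj' : upp i j < n + 2 := by
        unfold upp
        split_ifs <;> omega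
      exact cor_bot hd hj' fun c hc => ((h1 c hc (n + 2) i).2.1 hi2).1 j (by omega)
    · exact cor_top _ _ _ _ _
  obtain ⟨P, hPd⟩ : ∃ P : Bool × ℕ → Bool × ℕ, P = fun p => if p = (false, i) then (false, i + 1)
      else if p = (false, i + 1) then (false, i) else io i (P' (ko i p)) := ⟨_, rfl⟩
  have e1 : P (false, i) = (false, i + 1) := by
    rw [hPd]
    simp
  have e2 : P (false, i + 1) = (false, i) := by
    rw [hPd]
    simp
  have e3 : ∀ p, p ≠ (false, i) → p ≠ (false, i + 1) → P p = io i (P' (ko i p)) := by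
    intro p hp hp'
    rw [hPd]
    simp only
    rw [if_neg hp, if_neg hp']
  have hcd : ∀ c : Diag, cnt 1 c = some 1 → ∀ j < n + 2,
      cnt (n + 2) (sh j c ++ [(.cap, i)] ++ d') ≠ none := by
    intro c hc j hj
    rw [List.append_assoc, cnt_app (cnt_shc hc hj)]
    show cnt (n + 2) ((.cap, i) :: d') ≠ none
    rw [hd]
    simp
  refine ⟨P, fun p hp => ?_⟩
  by_cases hp1 : p = (false, i)
  · subst hp1
    rw [e1, e2]
    refine ⟨show i + 1 < n + 2 by omega, by simp, rfl, fun c hc => ?_⟩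
    have h3 := (((h1 c hc (n + 2) i).2.1 hi2).2.1).right d' (hcd c hc i (by omega))
    simp only [List.append_assoc, List.cons_append, List.nil_append] at h3
    exact h3
  · by_cases hp2 : p = (false, i + 1)
    · subst hp2
      rw [e2, e1]
      refine ⟨show i < n + 2 by omega, by simp, rfl, fun c hc => ?_⟩
      have h3 := (((h1 c hc (n + 2) i).2.1 hi2).2.2).right d' (hcd c hc (i + 1) (by omega))
      simp only [List.append_assoc, List.cons_append, List.nil_append] at h3
      exact h3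
    · have hk := ko_port hi hp hp1 hp2
      obtain ⟨a1, a2, a3, a4⟩ := hP (ko i p) hk
      rw [e3 p hp1 hp2]
      have hio := io_ne i (P' (ko i p))
      refine ⟨io_port a1, ?_, ?_, ?_⟩
      · intro h
        apply a2
        have h' := congrArg (ko i) h
        rwa [ko_io] at h'
      · rw [e3 _ hio.1 hio.2, ko_io, a3, io_ko i p hp1 hp2]
      · have h3 := hC (ko i p) hk
        rw [io_ko i p hp1 hp2] at h3
        exact glue h2 hn h3 (hC _ a1) a4

/-! ### Minima -/

/-- the case in which the partner of `io i p` is one of the two new ports -/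
lemma cup_aux (h2 : RCX_Stmt) {i n m : ℕ} {d' : Diag} (hi : i ≤ n)
    (hn : cnt n [(.cup, i)] = some (n + 2))
    (hC : ∀ p, IsPort n m p → Cor .cup i d' n p (io i p))
    {P' : Bool × ℕ → Bool × ℕ} (hP : Good d' (n + 2) m P') (P : Bool × ℕ → Bool × ℕ)
    (u v : Bool × ℕ) (hu : IsPort (n + 2) m u) (hv : IsPort (n + 2) m v) (huv : u ≠ v)
    (hu1 : u.1 = false) (hv1 : v.1 = false)
    (hE : ∀ x : Bool × ℕ, x ≠ u → x ≠ v → x ≠ (false, i) ∧ x ≠ (false, i + 1))
    (hE' : ∀ q, io i q ≠ u ∧ io i q ≠ v)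
    (hPu : ∀ p, P' (io i p) = u → P p = ko i (P' v))
    (hPv : ∀ p, P' (io i p) = v → P p = ko i (P' u))
    (hm : ∀ c : Diag, cnt 1 c = some 1 →
      EqD n ((.cup, i) :: att d' c u) ((.cup, i) :: att d' (pD 1 c) v))
    (p : Bool × ℕ) (hp : IsPort n m p) (hx : P' (io i p) = u) :
    IsPort n m (P p) ∧ P p ≠ p ∧ P (P p) = p ∧ R ((.cup, i) :: d') n p (P p) := by
  obtain ⟨a1, a2, a3, a4⟩ := hP (io i p) (io_port hp)
  obtain ⟨b1, b2, b3, b4⟩ := hP v hv
  rw [hx] at a1 a2 a3 a4
  obtain ⟨y, hy⟩ : ∃ y, y = P' v := ⟨_, rfl⟩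
  rw [hPu p hx]
  rw [← hy] at b1 b2 b3 b4 ⊢
  have hyu : y ≠ u := by
    intro h
    rw [h] at b3
    rw [b3] at a3
    exact (hE' p).2 a3.symm
  obtain ⟨hy1, hy2⟩ := hE y hyu b2
  have hkp := ko_port hi b1 hy1 hy2
  have hiky := io_ko i y hy1 hy2
  refine ⟨hkp, ?_, ?_, ?_⟩
  · intro h
    rw [h] at hiky
    -- `io i p = y`
    rw [hiky] at hx
    rw [b3] at hx
    exact huv hx.symm
  · have h3 : P' (io i (ko i y)) = v := by rw [hiky, b3]
    rw [hPv _ h3, a3, ko_io]
  · intro c hc
    have hcor := hC p hp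
    have hcor' := hC (ko i y) hkp
    rw [hiky] at hcor'
    have c1 : cnt 1 (rr (io i p).1 u.1 c) = some 1 := cnt_rr h2 _ _ hc
    have c2 : cnt 1 (pD 1 (rr (io i p).1 u.1 c)) = some 1 := (h2 _ c1).1
    have c3 := cnt_rr h2 v.1 y.1 c2
    have s1 := hcor.2 c hc
    have s2 := (a4 c hc).left [(.cup, i)] hn
    have s3 := hm _ c1
    have s4 := (b4 _ c2).left [(.cup, i)] hn
    have s5 := (hcor'.2 _ c3).symm
    have e : rr v.1 y.1 (pD 1 (rr (io i p).1 u.1 c)) = rr p.1 (ko i y).1 c := by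
      have e1 : (io i p).1 = p.1 := rfl
      have e2 : (ko i y).1 = y.1 := rfl
      rw [e1, e2, hu1, hv1]
      have hpp := (h2 c hc).2.1
      unfold rr
      cases p.1 <;> cases y.1 <;> simp [hpp]
    rw [← e]
    exact s1.trans (s2.trans (s3.trans (s4.trans s5)))

lemma case_cup (h1 : SLX_Stmt) (h2 : RCX_Stmt) {i n m : ℕ} {d' : Diag}
    (hi : i ≤ n) (hd : cnt n ((.cup, i) :: d') = some m) {P' : Bool × ℕ → Bool × ℕ}
    (hP : Good d' (n + 2) m P') : ∃ P, Good ((.cup, i) :: d') n m P := by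
  have hn : cnt n [(.cup, i)] = some (n + 2) := by
    rw [cnt_one (show i + Kind.cup.ins ≤ n by exact hi)]
    rfl
  have hd' : cnt (n + 2) d' = some m := by
    have h3 : cnt n ([(.cup, i)] ++ d') = some m := hd
    rw [cnt_app hn] at h3
    exact h3
  have hC : ∀ p, IsPort n m p → Cor .cup i d' n p (io i p) := by
    rintro ⟨b, j⟩ hq
    cases b
    · have hj : j < n := hq
      exact cor_bot hd hj fun c hc => ((h1 c hc n i).2.2 hi).1 j hj
    · exact cor_top _ _ _ _ _
  obtain ⟨P, hPd⟩ : ∃ P : Bool × ℕ → Bool × ℕ, P = fun p =>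
      if P' (io i p) = (false, i) then ko i (P' (false, i + 1))
      else if P' (io i p) = (false, i + 1) then ko i (P' (false, i)) else ko i (P' (io i p)) :=
    ⟨_, rfl⟩
  have e1 : ∀ p, P' (io i p) = (false, i) → P p = ko i (P' (false, i + 1)) := by
    intro p h
    rw [hPd]
    simp only
    rw [if_pos h]
  have e2 : ∀ p, P' (io i p) = (false, i + 1) → P p = ko i (P' (false, i)) := by
    intro p h
    rw [hPd]
    simp only
    rw [if_neg (by rw [h]; simp), if_pos h]
  have e3 : ∀ p, P' (io i p) ≠ (false, i) → P' (io i p) ≠ (false, i + 1) →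
      P p = ko i (P' (io i p)) := by
    intro p h h'
    rw [hPd]
    simp only
    rw [if_neg h, if_neg h']
  have hu : IsPort (n + 2) m (false, i) := show i < n + 2 by omega
  have hv : IsPort (n + 2) m (false, i + 1) := show i + 1 < n + 2 by omega
  have huv : ((false, i) : Bool × ℕ) ≠ (false, i + 1) := by simp
  have hvd : ∀ (c : Diag), cnt 1 c = some 1 → ∀ j < n + 2,
      cnt n ([(.cup, i)] ++ sh j c ++ d') ≠ none := by
    intro c hc j hj
    rw [List.append_assoc, cnt_app hn, cnt_app (cnt_shc hc hj), hd']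
    simp
  have hm1 : ∀ c : Diag, cnt 1 c = some 1 →
      EqD n ((.cup, i) :: att d' c (false, i)) ((.cup, i) :: att d' (pD 1 c) (false, i + 1)) := by
    intro c hc
    have h3 := (((h1 c hc n i).2.2 hi).2.1).right d' (hvd c hc i (by omega))
    simp only [List.append_assoc, List.cons_append, List.nil_append] at h3
    exact h3
  have hm2 : ∀ c : Diag, cnt 1 c = some 1 →
      EqD n ((.cup, i) :: att d' c (false, i + 1)) ((.cup, i) :: att d' (pD 1 c) (false, i)) := by
    intro c hc
    have h3 := (((h1 c hc n i).2.2 hi).2.2).right d' (hvd c hc (i + 1) (by omega))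
    simp only [List.append_assoc, List.cons_append, List.nil_append] at h3
    exact h3
  refine ⟨P, fun p hp => ?_⟩
  by_cases hx1 : P' (io i p) = (false, i)
  · exact cup_aux h2 hi hn hC hP P (false, i) (false, i + 1) hu hv huv rfl rfl
      (fun x h h' => ⟨h, h'⟩) (fun q => io_ne i q) e1 e2 hm1 p hp hx1
  · by_cases hx2 : P' (io i p) = (false, i + 1)
    · exact cup_aux h2 hi hn hC hP P (false, i + 1) (false, i) hv hu huv.symm rfl rfl
        (fun x h h' => ⟨h', h⟩) (fun q => (io_ne i q).symm) e2 e1 hm2 p hp hx2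
    · obtain ⟨a1, a2, a3, a4⟩ := hP (io i p) (io_port hp)
      rw [e3 p hx1 hx2]
      have hkp := ko_port hi a1 hx1 hx2
      have hik := io_ko i _ hx1 hx2
      refine ⟨hkp, ?_, ?_, ?_⟩
      · intro h
        rw [h] at hik
        exact a2 hik.symm
      · have h3 : P' (io i (ko i (P' (io i p)))) = io i p := by rw [hik, a3]
        have h4 := io_ne i p
        rw [e3 _ (by rw [h3]; exact h4.1) (by rw [h3]; exact h4.2), h3, ko_io]
      · have h3 := hC _ hkp
        rw [hik] at h3
        exact glue h2 hn (hC p hp) h3 a4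

theorem main (h1 : SLX_Stmt) (h2 : RCX_Stmt) : ∀ (d : Diag) (n m : ℕ), cnt n d = some m →
    ∃ P, Good d n m P := by
  intro d
  induction d with
  | nil =>
    intro n m h
    have hnm : n = m := by
      simpa [cnt] using h
    subst hnm
    refine ⟨fun p => (!p.1, p.2), ?_⟩
    rintro ⟨b, j⟩ hp
    cases b
    · refine ⟨hp, by simp, rfl, fun c _ => ?_⟩
      exact EqD.of_eq (List.append_nil _)
    · refine ⟨hp, by simp, rfl, fun c _ => ?_⟩
      exact EqD.of_eq (List.append_nil _).symm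
  | cons s d ih =>
    obtain ⟨k, i⟩ := s
    intro n m h
    obtain ⟨hle, hd⟩ := cnt_cons_some h
    obtain ⟨P', hP'⟩ := ih _ _ hd
    cases k with
    | crs e =>
      have hi : i + 2 ≤ n := hle
      have e1 : n - (Kind.crs e).ins + (Kind.crs e).outs = n := by
        show n - 2 + 2 = n
        omega
      rw [e1] at hP'
      exact case_crs h1 h2 hi h hP'
    | cap =>
      have hi : i + 2 ≤ n := hle
      obtain ⟨n', rfl⟩ : ∃ n', n = n' + 2 := ⟨n - 2, by omega⟩
      have e1 : n' + 2 - Kind.cap.ins + Kind.cap.outs = n' := by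
        show n' + 2 - 2 + 0 = n'
        omega
      rw [e1] at hP'
      exact case_cap h1 h2 (by omega) h hP'
    | cup =>
      have hi : i ≤ n := hle
      have e1 : n - Kind.cup.ins + Kind.cup.outs = n + 2 := rfl
      rw [e1] at hP'
      exact case_cup h1 h2 hi h hP'

end PTXAux

/-- Every port has a partner, and a long diagram slides from a port to its partner. -/
theorem t_PTX (h1 : SLX_Stmt) (h2 : RCX_Stmt) : PTX_Stmt := by
  intro d n m h
  exact PTXAux.main h1 h2 d n m h

end Pool.Agent.TX
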