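import Pool.Agent.TX.St
import Pool.Agent.UA.Bps

/-!
Theorem X (MP_31fd3b_gt): module RCX (a long diagram moves through a maximum and through a minimum
and is rotated).
-/

namespace Pool.Agent.TX

open Pool.Agent.LibH11.Sliced Pool.Agent.MTR Pool.Agent.MTA Pool.Agent.UA Pool.Agent.UB
open Pool.Agent.TwoBr Pool.Agent.Mont Pool.Agent.TV Pool.Agent.TW
open Pool.Agent.TB hiding vec

theorem t_RCX (h1 : FSY_Stmt) : RCX_Stmt := by
  intro c hc
  have hp : cnt 1 (pD 1 c) = some 1 := cnt_pD c hc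
  obtain ⟨-, s2, -⟩ := h1.2.1 c 1 1 hc
  have a1 := UA.Bps.cap0 hc
  have a2 := UA.Bps.cap0 hp
  have b1 := UA.Bps.cup0 h1 hc
  have b2 := UA.Bps.cup0 h1 hp
  rw [s2] at a2 b2
  exact ⟨hp, s2, a1, a2.symm, b1, b2.symm⟩

end Pool.Agent.TX
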