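import Pool.Agent.TX.St

/-!
# Module SLX: a long diagram slides through one slice
-/

namespace Pool.Agent.TX

open Pool.Agent.LibH11.Sliced Pool.Agent.MTR Pool.Agent.MTA Pool.Agent.UA Pool.Agent.UB
open Pool.Agent.TwoBr Pool.Agent.Mont Pool.Agent.TV Pool.Agent.TW
open Pool.Agent.TB hiding vec

namespace SlxM

/-- the count of a shifted long diagram -/
theorem cnt_c {c : Diag} (hc : cnt 1 c = some 1) (j n : ℕ) (h : j < n) :
    cnt n (sh j c) = some n := by
  obtain ⟨r, rfl⟩ := Nat.exists_eq_add_of_lt h
  have h1 := cnt_widen r (sh j c) (1 + j) (1 + j) (by rw [cnt_sh, hc]; rfl)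
  rw [show j + r + 1 = 1 + j + r by omega]
  exact h1

/-- the slice is on the right of the long diagram -/
theorem left_far {c : Diag} (hc : cnt 1 c = some 1) (k : Kind) {n i j : ℕ} (hj : j < i)
    (hi : i + k.ins ≤ n) : EqD n (sh j c ++ [(k, i)]) ([(k, i)] ++ sh j c) := by
  have h := far_words (sh j c) [(k, i - j - 1)] (j + 1) (j + 1) (n - j - 1)
    (cnt_c hc j (j + 1) (by omega)) (by rw [cnt_one (by omega)]; exact Option.some_ne_none _)
  rw [show j + 1 + (n - j - 1) = n by omega] at h
  have e : sh (j + 1) [(k, i - j - 1)] = [(k, i)] := by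
    rw [sh_cons, sh_nil]
    simp only
    rw [show i - j - 1 + (j + 1) = i by omega]
  rw [e] at h
  exact h

/-- the slice is on the left of the long diagram -/
theorem right_far {c : Diag} (hc : cnt 1 c = some 1) (k : Kind) {n i j j' : ℕ}
    (hj : i + k.ins ≤ j) (hn : j < n) (hj' : j' + k.ins = j + k.outs) :
    EqD n (sh j c ++ [(k, i)]) ([(k, i)] ++ sh j' c) := by
  have h := far_left k (i := i) (N := i + k.ins) le_rfl (sh (j - i - k.ins) c) (n - i - k.ins)
    (by rw [cnt_c hc _ _ (by omega)]; exact Option.some_ne_none _)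
  rw [show i + k.ins + (n - i - k.ins) = n by omega, sh_sh, sh_sh,
    show j - i - k.ins + (i + k.ins) = j by omega,
    show j - i - k.ins + (i + k.ins - k.ins + k.outs) = j' by omega] at h
  exact h.symm

/-- a local equivalence at the place `i` -/
theorem local_at {x y : Diag} {N n i : ℕ} (h : EqD N x y) (hn : i + N ≤ n) :
    EqD n (sh i x) (sh i y) := by
  have h1 := (h.sh i).widen (n - i - N)
  rw [show N + i + (n - i - N) = n by omega] at h1
  exact h1

end SlxM

open SlxM in
theorem t_SLX (h1 : RCX_Stmt) (h2 : TS.BEAD_Stmt) : SLX_Stmt := by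
  intro c hc n i
  obtain ⟨b1, b2, -⟩ := h2 c hc
  obtain ⟨-, -, r3, r4, r5, r6⟩ := h1 c hc
  refine ⟨fun e hi j hj => ?_, fun hi => ⟨fun j hj => ?_, ?_, ?_⟩,
    fun hi => ⟨fun j hj => ?_, ?_, ?_⟩⟩
  · -- a crossing
    unfold swp
    by_cases hji : j = i
    · subst hji
      rw [if_pos rfl]
      have := local_at (n := n) (i := j) (b1 e) (by omega)
      simpa only [sh_append, sh_cons, sh_nil, sh_sh, zero_add, add_comm 1 j] using this
    · rw [if_neg hji]
      by_cases hji1 : j = i + 1
      · subst hji1
        rw [if_pos rfl]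
        have := local_at (n := n) (i := i) (b2 e) (by omega)
        simpa only [sh_append, sh_cons, sh_nil, sh_sh, zero_add, add_comm 1 i] using this
      · rw [if_neg hji1]
        rcases lt_or_gt_of_ne hji with h | h
        · exact left_far hc (.crs e) h hi
        · exact right_far hc (.crs e) (show i + 2 ≤ j by omega) hj rfl
  · -- a maximum, the other strands
    unfold upp
    by_cases hji : j < i
    · rw [if_pos hji]
      exact left_far hc .cap hji hi
    · rw [if_neg hji]
      exact right_far hc .cap (show i + 2 ≤ j + 2 by omega) (by omega) rfl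
  · have := local_at (n := n) (i := i) r3 (by omega)
    simpa only [sh_append, sh_cons, sh_nil, sh_sh, zero_add, add_comm 1 i] using this
  · have := local_at (n := n) (i := i) r4 (by omega)
    simpa only [sh_append, sh_cons, sh_nil, sh_sh, zero_add, add_comm 1 i] using this
  · -- a minimum, the other strands
    unfold upp
    by_cases hji : j < i
    · rw [if_pos hji]
      exact left_far hc .cup hji hi
    · rw [if_neg hji]
      exact right_far hc .cup (show i + 0 ≤ j by omega) hj rfl
  · have := local_at (n := n) (i := i) r5 (by omega)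
    simpa only [sh_append, sh_cons, sh_nil, sh_sh, zero_add, add_comm 1 i] using this
  · have := local_at (n := n) (i := i) r6 (by omega)
    simpa only [sh_append, sh_cons, sh_nil, sh_sh, zero_add, add_comm 1 i] using this

end Pool.Agent.TX
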