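import Pool.Agent.TX.St
import Pool.Agent.TW.AsmA

/-!
Theorem X (MP_31fd3b_gt): modules SPX and LFX.
-/

namespace Pool.Agent.TX

open Pool.Agent.LibH11.Sliced Pool.Agent.MTR Pool.Agent.MTA Pool.Agent.UA Pool.Agent.UB
open Pool.Agent.TwoBr Pool.Agent.Mont Pool.Agent.TV Pool.Agent.TW
open Pool.Agent.TB hiding vec

/-- the trees with `T2` and with `T3` in a list -/
theorem t_SPX (h1 : NT3_Stmt) : SPX_Stmt := by
  intro Ts
  induction Ts with
  | nil =>
    intro _
    refine ⟨[], [], ?_, ?_, ?_, ?_⟩
    · exact List.Perm.refl _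
    · intro t ht
      exact absurd ht List.not_mem_nil
    · intro t ht
      exact absurd ht List.not_mem_nil
    · simp [VL, nts]
  | cons t Ts ih =>
    intro hT
    obtain ⟨Us, Xs, hp, hU, hX, hn⟩ := ih fun x hx => hT x (List.mem_cons_of_mem _ hx)
    rcases hT t List.mem_cons_self with h2 | ⟨a, b, c, e, h3⟩
    · refine ⟨t :: Us, Xs, ?_, ?_, hX, ?_⟩
      · exact hp.cons t
      · intro x hx
        rcases List.mem_cons.1 hx with rfl | hx
        · exact h2
        · exact hU x hx
      · rw [AsmA.VL_cons, AsmA.nts_append, h1.1 t h2, List.nil_append, hn]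
    · refine ⟨Us, (t, (a, b, c, e)) :: Xs, ?_, hU, ?_, ?_⟩
      · rw [List.map_cons]
        exact (hp.cons t).trans List.perm_middle.symm
      · intro x hx
        rcases List.mem_cons.1 hx with rfl | hx
        · exact h3
        · exact hX x hx
      · rw [AsmA.VL_cons, AsmA.nts_append, (h1.2 t a b c e h3).1, hn, List.map_cons]
        rfl

/-- a permutation of the images comes from a permutation of the list -/
theorem t_LFX : LFX_Stmt := by
  intro α β f l l'
  induction l' generalizing l with
  | nil =>
    intro h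
    have h0 : l.map f = [] := h.eq_nil
    rw [List.map_eq_nil_iff] at h0
    subst h0
    exact ⟨[], List.Perm.refl _, rfl⟩
  | cons y l' ih =>
    intro h
    have hy : y ∈ l.map f := h.symm.subset List.mem_cons_self
    obtain ⟨x, hx, rfl⟩ := List.mem_map.1 hy
    obtain ⟨l1, l2, rfl⟩ := List.append_of_mem hx
    have h2 : ((l1 ++ l2).map f).Perm l' := by
      rw [List.map_append, List.map_cons] at h
      have h3 := (List.perm_middle (a := f x) (l₁ := l1.map f) (l₂ := l2.map f)).symm.trans h
      rw [List.map_append]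
      exact h3.cons_inv
    obtain ⟨l0, hl0, hm⟩ := ih (l1 ++ l2) h2
    refine ⟨x :: l0, ?_, ?_⟩
    · exact List.perm_middle.trans (hl0.cons x)
    · rw [List.map_cons, hm]

end Pool.Agent.TX
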