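import Pool.Agent.TX.St
import Pool.Agent.TW.Wbv

/-!
Theorem X, module WBX: a list of nontrivial vertices of different classes against a list of vertices.
-/

namespace Pool.Agent.TX

open Pool.Agent.LibH11.Sliced Pool.Agent.MTR Pool.Agent.MTA Pool.Agent.UA Pool.Agent.UB
open Pool.Agent.TwoBr Pool.Agent.Mont Pool.Agent.TV Pool.Agent.TW
open Pool.Agent.TB hiding vec

namespace WBX

open Pool.Agent.TW.WBV

theorem sum_eq_zero {α M : Type*} [AddCommMonoid M] (f : α → M) : ∀ l : List α,
    (∀ a ∈ l, f a = 0) → (l.map f).sum = 0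
  | [], _ => rfl
  | a :: l, h => by
    rw [List.map_cons, List.sum_cons, h a List.mem_cons_self,
      sum_eq_zero f l fun b hb => h b (List.mem_cons_of_mem _ hb), add_zero]

open Classical in
theorem classes' (h1 : ALZ_Stmt) (D : ℤ) (hD : D ≠ 0) (Vs : List Vx)
    (hv : ∀ v ∈ Vs, (tot v).1 ∣ D) (K : ℤ) (φ : ℚ → ℂ) (hK : K ≠ 0) (hφ : Per1 φ) :
    (((nts Vs).filter fun v => decide (Kv D v = K)).map (alv φ D)).sum =
      (Vs.map fun v => if Kv D v = K then alv φ D v else 0).sum := by
  rw [← filt]
  unfold nts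
  refine (sum_filter (fun v => decide (Ntr v)) _ Vs fun v hvs hn => ?_).symm
  by_cases h : Kv D v = K
  · rw [if_pos h]
    have ht : (tot v).2 ≠ 0 := fun h0 => hK (by rw [← h, Kv, h0, mul_zero])
    exact h1.2.1 D v hD (hv v hvs) ht (by simpa using hn) φ hφ
  · rw [if_neg h]

/-- the case of an empty second list -/
theorem base (h1 : ALZ_Stmt) (h2 : QIN_Stmt) (h3 : SLQ_Stmt) (D : ℤ) (hD : D ≠ 0) (Vs : List Vx)
    (hv : ∀ v ∈ Vs, (tot v).1 ∣ D)
    (H : ∀ (K : ℤ) (φ : ℚ → ℂ), K ≠ 0 → Per1 φ →
      (Vs.map fun v => if Kv D v = K then alv φ D v else 0).sum = 0) :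
    ∀ v ∈ nts Vs, JD v < 0 := by
  classical
  have hN : ∀ v ∈ nts Vs, Fc D v := by
    intro v hvn
    unfold nts at hvn
    obtain ⟨ha, hb⟩ := List.mem_filter.1 hvn
    exact fc h1 hD (hv v ha) (by simpa using hb)
  have HC : ∀ (K : ℤ) (φ : ℚ → ℂ), K ≠ 0 → Per1 φ →
      (((nts Vs).filter fun v => decide (Kv D v = K)).map (alv φ D)).sum = 0 := by
    intro K φ hK hφ
    rw [classes' h1 D hD Vs hv K φ hK hφ, H K φ hK hφ]
  set N := nts Vs with hNdef
  intro v hvN
  refine JD_lt h2 (hN v hvN) ?_
  by_contra hs
  have h4 := HC (Kv D v) _ (hN v hvN).K0 ind_per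
  have h5 : ((N.filter fun w => decide (Kv D w = Kv D v)).map
      (alv (fun β : ℚ => if ∃ n : ℤ, β = n then (1 : ℂ) else 0) D)) =
      (N.filter fun w => decide (Kv D w = Kv D v)).map fun w => ((ncw w : ℕ) : ℂ) := by
    refine List.map_congr_left fun w hw => ?_
    obtain ⟨hw1, hw2⟩ := List.mem_filter.1 hw
    have hw3 : Kv D w = Kv D v := by simpa using hw2
    refine ind_val h3 (hN w hw1) ?_
    rw [← (hN w hw1).sg, hw3, (hN v hvN).sg]
    exact hs
  rw [h5, sum_cast] at h4
  have h6 := sum_nc_pos (N.filter fun w => decide (Kv D w = Kv D v))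
    (List.ne_nil_of_mem (List.mem_filter.2 ⟨hvN, by simp⟩))
  have h7 : ((N.filter fun w => decide (Kv D w = Kv D v)).map ncw).sum = 0 := by
    exact_mod_cast h4
  omega

theorem nts_split (p : Vx → Bool) (Vs : List Vx) :
    (nts Vs).Perm (nts (Vs.filter p) ++ nts (Vs.filter fun v => !p v)) := by
  classical
  unfold nts
  rw [← List.filter_append]
  exact ((List.filter_append_perm p Vs).filter _).symm

theorem forall2_sum (D : ℤ) : ∀ (l l' : List Vx), List.Forall₂ (Mtc D) l l' →
    (l.map JD).sum = (l'.map JD).sum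
  | _, _, .nil => rfl
  | _, _, .cons h h' => by
    rw [List.map_cons, List.map_cons, List.sum_cons, List.sum_cons, h.2.1, forall2_sum D _ _ h']

end WBX

open WBX Pool.Agent.TW.WBV in
theorem t_WBX (h1 : ALZ_Stmt) (h2 : QIN_Stmt) (h3 : SLQ_Stmt) (h4 : WBV_Stmt) : WBX_Stmt := by
  classical
  intro D hD Vs Ws
  induction Ws generalizing Vs with
  | nil =>
    intro hv _ _ H
    by_cases hn : nts Vs = []
    · exact Or.inl ⟨[], by rw [hn], List.Forall₂.nil⟩
    · right
      have hJ := base h1 h2 h3 D hD Vs (fun v hvs => hv v (by simpa using hvs))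
        (fun K φ hK hφ => by simpa using H K φ hK hφ)
      have := sum_lt JD (fun _ => 0) (nts Vs) hn hJ
      rw [sum_const, mul_zero] at this
      simpa using this
  | cons w Ws0 ih =>
    intro hv hW hnd H
    rw [List.map_cons, List.nodup_cons] at hnd
    have fw : Fc D w := fc h1 hD (hv w (by simp)) (hW w List.mem_cons_self)
    have hWs0 : ∀ u ∈ Ws0, Kv D u ≠ Kv D w := fun u hu he =>
      hnd.1 (by rw [← he]; exact List.mem_map_of_mem hu)
    set p : Vx → Bool := fun v => decide (Kv D v = Kv D w) with hp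
    have hp1 : ∀ v, p v = true ↔ Kv D v = Kv D w := fun v => by simp [hp]
    have hp0 : ∀ v, p v = false ↔ Kv D v ≠ Kv D w := fun v => by simp [hp]
    have hsumw : ∀ (K : ℤ) (φ : ℚ → ℂ), K ≠ 0 → Per1 φ →
        (Vs.map fun v => if Kv D v = K then alv φ D v else 0).sum =
          (if Kv D w = K then alv φ D w else 0) +
            (Ws0.map fun v => if Kv D v = K then alv φ D v else 0).sum := by
      intro K φ hK hφ
      rw [H K φ hK hφ, List.map_cons, List.sum_cons]
    -- the class of `w`
    have r1 := h4 D hD (Vs.filter p) w (by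
        intro v hvm
        rcases List.mem_cons.1 hvm with rfl | hvm
        · exact hv _ (by simp)
        · exact hv v (by
            have := List.mem_of_mem_filter hvm
            simp [this])) (hW w List.mem_cons_self) (by
        intro K φ hK hφ
        by_cases hKw : Kv D w = K
        · rw [if_pos hKw, ← sum_filter p, hsumw K φ hK hφ, if_pos hKw,
            WBX.sum_eq_zero _ Ws0 (fun u hu => if_neg (by rw [← hKw]; exact hWs0 u hu)), add_zero]
          intro v _ hpv
          rw [if_neg (by rw [← hKw]; exact (hp0 v).1 hpv)]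
        · rw [if_neg hKw]
          refine WBX.sum_eq_zero _ _ fun v hvm => ?_
          have := (hp1 v).1 (List.mem_filter.1 hvm).2
          rw [if_neg (by rw [this]; exact hKw)])
    -- the other classes
    have r2 := ih (Vs.filter fun v => !p v) (by
        intro v hvm
        rcases List.mem_append.1 hvm with hvm | hvm
        · exact hv v (by simp [hvm])
        · exact hv v (by
            have := List.mem_of_mem_filter hvm
            simp [this])) (fun u hu => hW u (List.mem_cons_of_mem _ hu)) hnd.2 (by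
        intro K φ hK hφ
        by_cases hKw : Kv D w = K
        · rw [WBX.sum_eq_zero _ Ws0 (fun u hu => if_neg (by rw [← hKw]; exact hWs0 u hu))]
          refine WBX.sum_eq_zero _ _ fun v hvm => ?_
          have h5 := (List.mem_filter.1 hvm).2
          have h6 : p v = false := by simpa using h5
          rw [if_neg (by rw [← hKw]; exact (hp0 v).1 h6)]
        · rw [← sum_filter (fun v => !p v), hsumw K φ hK hφ, if_neg hKw, zero_add]
          intro v _ hpv
          have h6 : p v = true := by simpa using hpv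
          rw [if_neg (by rw [(hp1 v).1 h6]; exact hKw)])
    have hperm := nts_split p Vs
    have hsum : ((nts Vs).map JD).sum = ((nts (Vs.filter p)).map JD).sum +
        ((nts (Vs.filter fun v => !p v)).map JD).sum := by
      rw [(hperm.map JD).sum_eq, List.map_append, List.sum_append]
    have e1 : ((w :: Ws0).map JD).sum = JD w + (Ws0.map JD).sum := by
      rw [List.map_cons, List.sum_cons]
    rcases r1 with ⟨v, hv1, hk, hJ, hpm⟩ | r1
    · rcases r2 with ⟨Vs', hV', hF⟩ | r2
      · left
        refine ⟨v :: Vs', ?_, List.Forall₂.cons ⟨hk, hJ, hpm⟩ hF⟩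
        refine hperm.trans ?_
        rw [hv1, List.singleton_append]
        exact hV'.cons v
      · right
        rw [hsum, e1, hv1]
        simp only [List.map_cons, List.map_nil, List.sum_cons, List.sum_nil]
        linarith
    · right
      have h7 : ((nts (Vs.filter fun v => !p v)).map JD).sum ≤ (Ws0.map JD).sum := by
        rcases r2 with ⟨Vs', hV', hF⟩ | r2
        · rw [(hV'.map JD).sum_eq, forall2_sum D _ _ hF]
        · exact r2.le
      rw [hsum, e1]
      linarith

end Pool.Agent.TX
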