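import Pool.Agent.TX.AsmX
import Pool.Agent.TX.AsmY
import Pool.Agent.TX.Wbx
import Pool.Agent.TX.Spx
import Pool.Agent.TX.Rcx
import Pool.Agent.TX.Slx
import Pool.Agent.TX.Ptx
import Pool.Agent.TX.Gcx
import Pool.Agent.TW.Final

/-!
Theorem X (MP_31fd3b_gt): rational finite type invariants separate the connected sums of 2-bridge
knots and Montesinos knots with three rational tangles and different sums of slopes from every
arborescent knot, up to the orientation of the summands with odd denominators. Assembly.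
-/

namespace Pool.Agent.TX

open Pool.Agent.LibH11.Sliced Pool.Agent.MTR Pool.Agent.MT Pool.Agent.MTA Pool.Agent.UA
open Pool.Agent.UB Pool.Agent.TwoBr Pool.Agent.Mont Pool.Agent.TV Pool.Agent.TW
open Pool.Agent.TB hiding vec

/-- The algebraic part of Theorem X. -/
theorem algx_all : ALGX_Stmt := by
  have jpv : JPV_Stmt := t_JPV
  have jdv : JDV_Stmt := t_JDV jpv
  have sgn : SGN_Stmt := t_SGN
  have ratj : RATJ_Stmt := t_RATJ jpv t_RATG jdv
  have kbm : KBM_Stmt := t_KBM jpv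
  have jdiv : JDIV_Stmt := t_JDIV t_ACT t_PRD t_MULG kbm
  have sfin := sfin_all
  have aid := t_AID sfin
  have xxf := t_XXF aid sfin
  have gq := t_GQ sfin
  have rsv := t_RSV gq t_VTS sfin
  have rsi := t_RSI xxf rsv t_PF t_VTS
  have cls := TW.t_CLS (t_CQE t_VTS) (t_MUKS t_FIB)
  have pla := t_PLA (t_GSY sfin) (t_PLN sfin) t_PLC t_FIB
  have jonv := t_JONV (t_JONEV t_KBG t_JNAT) (t_JPR t_ACT t_PRD t_ORI t_MULG kbm) jdiv t_BVN jdv
  have ru := t_RU jpv t_RATG ratj jdv
  have omr := t_OMR ru jpv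
  have omp := t_OMP omr ru jpv
  have nwl := t_NWL t_WADG omr ru jpv jdv
  have crn := t_CRN sgn
  have lad := t_LAD jdv jpv
  have lae := t_LAE lad ru jpv
  have vxa := t_VXA omr omp ru jpv jdv
  have alz := t_ALZ
  have gvx := t_GVX ru lad lae
  have wbv := t_WBV alz (t_QIN alz) t_SLQ
  have wbx := t_WBX alz (t_QIN alz) t_SLQ wbv
  have sw := t_SW crn sgn
  have nt3 := t_NT3 ru
  have m3c := t_M3C crn t_VTS
  have nle := t_NLE t_VTS
  exact algx liew_all t_VTS rsi cls t_CSM alz pla jonv omr omp nwl crn vxa gvx wbx sw nt3 m3c nle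
    t_NVE intw_all.2.1 intw_all.2.2 jpv (t_SPX nt3) t_LFX

/-- **Theorem X**, for diagrams. -/
theorem separate_all (t : Diag) (ht : Arb t) (h : IsLongKnot (cl t)) (ws : List Diag)
    (hws : ∀ w ∈ ws, IsLongKnot w ∧ minima w ≤ 1) (ms : List Tri) (hms : ∀ m ∈ ms, m.Ok)
    (hnd : (ms.map Tri.sm).Nodup) (h' : IsLongKnot (ws.flatten ++ (ms.map Tri.dg).flatten))
    (hv : ∀ v : Knot → ℚ, IsFiniteType v →
      v (ofDiag (cl t) h) = v (ofDiag (ws.flatten ++ (ms.map Tri.dg).flatten) h')) :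
    ∃ ns : List Diag,
      List.Forall₂ (fun n (m : Tri) => n = m.dg ∨ (m.Od ∧ n = flipD m.dg)) ns ms ∧
      EqD 1 (cl t) (ws.flatten ++ ns.flatten) := by
  have jpv : JPV_Stmt := t_JPV
  have jdv : JDV_Stmt := t_JDV jpv
  have ratj : RATJ_Stmt := t_RATJ jpv t_RATG jdv
  have ru := t_RU jpv t_RATG ratj jdv
  have h1 := t_FSY
  have h2 := t_FEQ h1
  have h3 := t_FCG
  have h4 := t_FRO h1 h2 h3
  have h5 := t_FFL h1
  have h6 := t_FIT h3
  have h7 := t_FR3 h1 h2 h3 h4 h5
  have h8 := t_FC0 h1 h2 h3 h4 h5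
  have rti := t_RTI h1 h2 h3 h4 h5
  have str := t_STR h4 h3
  have onem := t_ONEM rti str h3
  have rtc := t_RTC rti h8 h5 h3
  have kdt := t_KDT rti str h3 h6
  have com : TS.COM_Stmt := TS.com (TS.bead TS.natx)
  have kdf := t_KDF com h5 h3 onem rtc
  have rtt := t_RTT fta_all h3
  have rtu := t_RTU t_RATG h7 h5 h4 h3 h1 h2 fta_all h6 rti ru
  have tww := t_TWW str rti h3
  have mtm := t_MTM tww h3
  have top3 := t_TOP3 h1 h2 h3 h4 h5 h8 rti
  have syf := t_SYF rtu ru rti h8 h5 h3 h1 fta_all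
  have unn := t_UNN chno (cfuo chno)
  have topw := t_TOPW unn
  have odm := t_ODM mtm (adv chno) chno
  have cmb := t_CMB kdf syf h3
  have rcx := t_RCX h1
  have slx := t_SLX rcx (TS.bead TS.natx)
  have gcx := t_GCX (t_PTX slx rcx)
  have pcx := t_PCX gcx h3
  exact separate_x algx_all ftop_all fta_all h6 h3 t_LKB kdt syf cmb top3 mtm topw odm rtt h5 rti
    pcx t ht h ws hws ms hms hnd h' hv

end Pool.Agent.TX
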