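import Pool.Agent.TX.Defs

/-!
Theorem X (MP_31fd3b_gt): statements of the modules with their proofs.
-/

namespace Pool.Agent.TX

open Pool.Agent.LibH11.Sliced Pool.Agent.MTR Pool.Agent.MTA Pool.Agent.UA Pool.Agent.UB
open Pool.Agent.TwoBr Pool.Agent.Mont Pool.Agent.TV Pool.Agent.TW
open Pool.Agent.TB hiding vec

/-! ## 1. Algebra -/

/-- The correspondence between two vertices of the same class. -/
def Mtc (D : ℤ) (v w : Vx) : Prop :=
  Kv D v = Kv D w ∧ JD v = JD w ∧ ((sls v).map Int.fract).Perm ((sls w).map Int.fract)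

/-- WBX (uses ALZ, QIN, SLQ, WBV of TW; see Pool/Agent/TW/StA.lean, Pool/Agent/TW/Wbv.lean): a list of
nontrivial vertices of different classes against a list of vertices.

Proof. Induction on `Ws`. Put `S K = (Vs.map fun v => if Kv D v = K then alv φ D v else 0).sum`.
`Ws = []`: all sums `S K`, `K ≠ 0`, are `0`. If `nts Vs = []` then the first alternative holds with `Vs' = []`.
Otherwise every `v ∈ nts Vs` has `JD v < 0`: let `K = Kv D v ≠ 0` (ALZ, first part). If `D / K` is an
integer then use QIN, first case (`slp (tot v) = D / K` is the sum of the slopes, `JD v = 4 / σ² * QF < 0`). If it is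
no integer then take the indicator function `φ` of the integers (SLQ, third part): every nontrivial vertex with
`Kv D v = K` contributes `1 + nuc ≥ 1` (its real part), the trivial ones contribute `0` (ALZ, second part; compare
`AsmA.class_nts` in Pool/Agent/TW/AsmA.lean), so the sum is not `0`, a contradiction. Hence the sum of the `JD v` is
negative. (This is part (a) of the proof of WBV.)
`Ws = w :: Ws0`: let `K' = Kv D w` (nonzero by ALZ), `V1` the list of the `v ∈ Vs` with `Kv D v = K'`, `V2` the others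
(`List.filter`). The elements of `Ws0` have classes different from `K'`. WBV applies to `V1` and `w`: for `K = K'` the sum
over `V1` is the sum over `Vs`, which is `alv φ D w`; for `K ≠ K'` both sides are `0`. The induction hypothesis applies to
`V2` and `Ws0`: for `K ≠ K'` the sum over `V2` is the sum over `Vs` and the `w`-term is `0`; for `K = K'` both sides are `0`.
`(nts Vs).Perm (nts V1 ++ nts V2)`. If both results are the first alternatives, `nts V1 = [v]` and
`(nts V2).Perm Vs'`: take `v :: Vs'`. If at least one is the second alternative then add the two (in)equalities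
(`JD v = JD w`, and the sums of `JD` agree in the first alternative). -/
def WBX_Stmt : Prop :=
  ∀ D : ℤ, D ≠ 0 → ∀ Vs Ws : List Vx, (∀ v ∈ Ws ++ Vs, (tot v).1 ∣ D) → (∀ w ∈ Ws, Ntr w) →
    (Ws.map (Kv D)).Nodup →
    (∀ (K : ℤ) (φ : ℚ → ℂ), K ≠ 0 → Per1 φ →
      (Vs.map fun v => if Kv D v = K then alv φ D v else 0).sum =
        (Ws.map fun v => if Kv D v = K then alv φ D v else 0).sum) →
    (∃ Vs' : List Vx, (nts Vs).Perm Vs' ∧ List.Forall₂ (Mtc D) Vs' Ws) ∨
      ((nts Vs).map JD).sum < (Ws.map JD).sum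

/-- SPX (uses NT3 of TW): the trees with `T2` and with `T3` in a list.

Proof. Induction on `Ts`. `T2 t`: `nts (vts (0, 1) t) = []` (NT3), put `t` into `Us` (`AsmA.nts_append`, `AsmA.VL_cons`).
Otherwise `T3 t a b c e`: `nts (vts (0, 1) t) = [v0 a b c e]` (NT3), put `(t, (a, b, c, e))` in front of `Xs`. -/
def SPX_Stmt : Prop :=
  ∀ Ts : List Tr, (∀ t ∈ Ts, T2 t ∨ ∃ a b c e, T3 t a b c e) →
    ∃ (Us : List Tr) (Xs : List (Tr × Md)), Ts.Perm (Us ++ Xs.map Prod.fst) ∧ (∀ t ∈ Us, T2 t) ∧
      (∀ X ∈ Xs, X.2.T X.1) ∧ nts (VL Ts) = Xs.map fun X => X.2.vx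

/-- LFX: a permutation of the images comes from a permutation of the list.

Proof. Induction on the permutation, or on `l'`: the first element `y` of `l'` is `f x` for an `x ∈ l`,
`l = l1 ++ x :: l2`, and `(l1 ++ l2).map f` is a permutation of the rest. -/
def LFX_Stmt : Prop :=
  ∀ (α β : Type) (f : α → β) (l : List α) (l' : List β), (l.map f).Perm l' →
    ∃ l0 : List α, l.Perm l0 ∧ l0.map f = l'

/-- ALGX: the algebraic part of Theorem X (assembly). -/
def ALGX_Stmt : Prop :=
  ∀ (Ts T0 : List Tr) (Ms : List Md) (h : IsLongKnot (cls Ts))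
    (h' : IsLongKnot (cls (T0 ++ Ms.map Md.tr))), Ts.length = T0.length + Ms.length →
    (∀ t ∈ Ts, t.CR) → (∀ t ∈ T0, t.Rat ∧ Odd (vec t).1) →
    (∀ m ∈ Ms, m.Ok ∧ Odd (vec m.tr).1) → (Ms.map Md.sg).Nodup →
    (∀ v : Knot → ℂ, IsFiniteType v →
      v (ofDiag (cls Ts) h) = v (ofDiag (cls (T0 ++ Ms.map Md.tr)) h')) →
    ∃ (Us : List Tr) (Xs : List (Tr × Md)) (D : ℤ), D ≠ 0 ∧ Ts.Perm (Us ++ Xs.map Prod.fst) ∧
      (∀ x ∈ Us, T2 x) ∧
      List.Forall₂ (fun X m => X.2.T X.1 ∧ X.2.fr.Perm m.fr ∧ X.2.sg = m.sg) Xs Ms ∧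
      ∀ F : ℤ × ℤ → ℤ × ℤ → ℂ, Sym D F → (Us.map fun x => F (prT x).1 (prT x).2).sum =
        (T0.map fun x => F (prT x).1 (prT x).2).sum

/-! ## 2. Commutativity of the connected sum -/

/-- RCX (uses `Mont.np_word`, Pool/Agent/Mont/Rot.lean, and `Mont.EqD_flip`): a long diagram moves through a
maximum and through a minimum and is rotated.

Proof. (1) `np_word` with `a = b = 1`: `NC 1 = [(.cap, 0)]`, so `c ++ [(.cap, 0)] ~ sh 1 (pD 1 c) ++ [(.cap, 0)]`. (2) The same
for `pD 1 c` and `pD 1 (pD 1 c) = c` (FSY of UA, `UA.t_FSY`). (3), (4): reflect: apply (1), (2) to `flipD c` and use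
`EqD_flip`; `flipD (sh 1 w) = sh 1 (flipD w)` (`UA.flipD_sh`, Pool/Agent/UA/Fro.lean), `flipD (pD 1 (flipD c)) = pD 1 c` (FSY: with
`t' = flipD c`: `flipD (pD 1 t') = hD 1 t'`, `hD 1 (flipD c) = pD 1 c`), `flipD (c ++ [(.cap, 0)]) = [(.cup, 0)] ++ flipD c`. -/
def RCX_Stmt : Prop :=
  ∀ c : Diag, cnt 1 c = some 1 → cnt 1 (pD 1 c) = some 1 ∧ pD 1 (pD 1 c) = c ∧
    EqD 2 (c ++ [(.cap, 0)]) (sh 1 (pD 1 c) ++ [(.cap, 0)]) ∧
    EqD 2 (sh 1 c ++ [(.cap, 0)]) (pD 1 c ++ [(.cap, 0)]) ∧
    EqD 0 ([(.cup, 0)] ++ c) ([(.cup, 0)] ++ sh 1 (pD 1 c)) ∧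
    EqD 0 ([(.cup, 0)] ++ sh 1 c) ([(.cup, 0)] ++ pD 1 c)

/-- the port `(false, j)` (bottom) or `(true, j)` (top) of a diagram from `n` to `m` strands -/
def IsPort (n m : ℕ) (p : Bool × ℕ) : Prop := p.2 < if p.1 then m else n

/-- the diagram `d` with the long diagram `c` at the port `p` -/
def att (d c : Diag) (p : Bool × ℕ) : Diag := if p.1 then d ++ sh p.2 c else sh p.2 c ++ d

/-- the exchange of the strands `i` and `i + 1` -/
def swp (i j : ℕ) : ℕ := if j = i then i + 1 else if j = i + 1 then i else j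

/-- two new strands at `i` -/
def upp (i j : ℕ) : ℕ := if j < i then j else j + 2

/-- SLX (uses RCX; BEAD of TS, proved: `TS.bead TS.natx`; `TwoBr.far_left`, `TwoBr.far_words` of
Pool/Agent/TwoBr/EqD.lean): a long diagram slides through one slice.

Proof. BEAD gives `c ++ [(crs e, 0)] ~ [(crs e, 0)] ++ sh 1 c` and `sh 1 c ++ [(crs e, 0)] ~ [(crs e, 0)] ++ c` for two
strands, RCX gives the moves through `(cap, 0)` and `(cup, 0)`. Shift by `i` (`EqD.sh`) and add strands on the right
(`EqD.widen`). The other strands: if `j < i` then `sh j c` and the slice commute by `far_words` (the slice is on the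
right of `sh j c`: `u = sh j c` as a word with `j + 1` strands, `v = [(k, i - j - 1)]`); if `j ≥ i + k.ins` then by
`far_left` (the slice is on the left, `v = sh (j - i - k.ins) c`). -/
def SLX_Stmt : Prop :=
  ∀ c : Diag, cnt 1 c = some 1 → ∀ n i : ℕ,
    (∀ e : Bool, i + 2 ≤ n → ∀ j < n,
      EqD n (sh j c ++ [(.crs e, i)]) ([(.crs e, i)] ++ sh (swp i j) c)) ∧
    (i + 2 ≤ n → (∀ j < n - 2, EqD n (sh (upp i j) c ++ [(.cap, i)]) ([(.cap, i)] ++ sh j c)) ∧
      EqD n (sh i c ++ [(.cap, i)]) (sh (i + 1) (pD 1 c) ++ [(.cap, i)]) ∧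
      EqD n (sh (i + 1) c ++ [(.cap, i)]) (sh i (pD 1 c) ++ [(.cap, i)])) ∧
    (i ≤ n → (∀ j < n, EqD n (sh j c ++ [(.cup, i)]) ([(.cup, i)] ++ sh (upp i j) c)) ∧
      EqD n ([(.cup, i)] ++ sh i c) ([(.cup, i)] ++ sh (i + 1) (pD 1 c)) ∧
      EqD n ([(.cup, i)] ++ sh (i + 1) c) ([(.cup, i)] ++ sh i (pD 1 c)))

/-- PTX (uses SLX, RCX): every port has a partner, and a long diagram slides from a port to its
partner; it is rotated if the two ports are on the same side.

Proof. Induction on `d`. `d = []`: the partner of `(false, j)` is `(true, j)` and conversely.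
`d = (k, i) :: d'`, `d'` from `n'` to `m`; let `P'` be the map for `d'`.
`k = crs e`: `n' = n`; `P p = ι (P' (ι p))` with `ι (false, j) = (false, swp i j)`, `ι (true, j) = (true, j)`: SLX moves `c` from a
bottom port of `d` to the corresponding one of `d'`.
`k = cap`: `n = n' + 2`. `P (false, i) = (false, i + 1)` and conversely (SLX); for the other ports `p = ι q`,
`ι (false, j) = (false, upp i j)`, `ι (true, j) = (true, j)`, `q` a port of `d'`: `P p = ι (P' q)`.
`k = cup`: `n' = n + 2`. With the same `ι` (now from the ports of `d` to the ports of `d'` different from `(false, i)` and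
`(false, i + 1)`) let `x = P' (ι p)`. If `x` is not one of the two ports then `P p = ι⁻¹ x`. If `x = (false, i)` then
`P p = ι⁻¹ (P' (false, i + 1))`: the diagram `c` at `p` slides to the port `(false, i)` of `d'`, through the minimum to the port
`(false, i + 1)` of `d'` and is rotated (SLX), and then to its partner. `P' (false, i) = ι p` is not `(false, i + 1)` and `P'`
has no fixed points, so `P' (false, i + 1)` is none of the two ports. The same with `i` and `i + 1` exchanged. In each case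
`c` is rotated if and only if the two ports are on the same side (`pD 1 (pD 1 c) = c`, RCX). -/
def PTX_Stmt : Prop :=
  ∀ (d : Diag) (n m : ℕ), cnt n d = some m → ∃ P : Bool × ℕ → Bool × ℕ,
    ∀ p, IsPort n m p → IsPort n m (P p) ∧ P p ≠ p ∧ P (P p) = p ∧
      ∀ c : Diag, cnt 1 c = some 1 →
        EqD n (att d c p) (att d (if (P p).1 = p.1 then pD 1 c else c) (P p))

/-- GCX (uses PTX): the connected sum of long diagrams is commutative.

Proof. PTX with `d = g`, `n = m = 1`, `p = (false, 0)`: the only other port is `(true, 0)`, so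
`sh 0 f ++ g ~ g ++ sh 0 f`. -/
def GCX_Stmt : Prop :=
  ∀ f g : Diag, cnt 1 f = some 1 → cnt 1 g = some 1 → EqD 1 (f ++ g) (g ++ f)

/-- PCX (uses GCX, FCG of UA): the order of the summands.

Proof. Induction on the permutation (`cls l = (l.map fun t => cl t.dg).flatten`, `cnt 1 (cl t.dg) = some 1`, FCG). -/
def PCX_Stmt : Prop :=
  (∀ l l' : List Tr, l.Perm l' → EqD 1 (cls l) (cls l')) ∧
    ∀ l l' : List Diag, l.Perm l' → (∀ w ∈ l, cnt 1 w = some 1) → EqD 1 l.flatten l'.flatten

end Pool.Agent.TX
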